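import Mathlib

/-!
The Haar system on the real line: dyadic indicators, Haar functions, orthonormality.
-/

open MeasureTheory Set

namespace Pool.Agent.X91.Haar

/-- The dyadic interval `[k 2^j, (k+1) 2^j)`. -/
def dy (j k : ℤ) : Set ℝ := Set.Ico ((k : ℝ) * 2 ^ j) (((k : ℝ) + 1) * 2 ^ j)

/-- Indicator function of the dyadic interval. -/
noncomputable def chi (j k : ℤ) : ℝ → ℝ := (dy j k).indicator 1

/-- The Haar function of the dyadic interval `[k 2^j, (k+1) 2^j)`. -/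
noncomputable def haar (j k : ℤ) (x : ℝ) : ℝ :=
  (Real.sqrt (2 ^ j))⁻¹ * (chi (j - 1) (2 * k + 1) x - chi (j - 1) (2 * k) x)

theorem two_zpow_pos (j : ℤ) : (0 : ℝ) < 2 ^ j := zpow_pos two_pos j

theorem mem_dy (j k : ℤ) (x : ℝ) : x ∈ dy j k ↔ ⌊x / 2 ^ j⌋ = k := by
  have h := two_zpow_pos j
  rw [Int.floor_eq_iff, dy, Set.mem_Ico, le_div_iff₀ h, div_lt_iff₀ h]

theorem chi_eq (j k : ℤ) (x : ℝ) : chi j k x = if ⌊x / 2 ^ j⌋ = k then 1 else 0 := by
  unfold chi
  by_cases h : x ∈ dy j k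
  · rw [Set.indicator_of_mem h, if_pos ((mem_dy j k x).mp h)]
    rfl
  · rw [Set.indicator_of_notMem h, if_neg (fun h' => h ((mem_dy j k x).mpr h'))]

theorem measurableSet_dy (j k : ℤ) : MeasurableSet (dy j k) := measurableSet_Ico

theorem measurable_chi (j k : ℤ) : Measurable (chi j k) :=
  measurable_one.indicator (measurableSet_dy j k)

theorem volume_dy (j k : ℤ) : volume (dy j k) = ENNReal.ofReal (2 ^ j) := by
  unfold dy
  rw [Real.volume_Ico]
  congr 1
  ring

theorem integrable_chi (j k : ℤ) : Integrable (chi j k) := by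
  unfold chi
  refine (integrable_indicator_iff (measurableSet_dy j k)).mpr ?_
  refine integrableOn_const ?_ ?_
  · rw [volume_dy]
    exact ENNReal.ofReal_ne_top
  · simp

theorem integral_chi (j k : ℤ) : ∫ x, chi j k x = 2 ^ j := by
  unfold chi
  rw [integral_indicator_one (measurableSet_dy j k), Measure.real, volume_dy,
    ENNReal.toReal_ofReal (two_zpow_pos j).le]

theorem measurable_haar (j k : ℤ) : Measurable (haar j k) :=
  ((measurable_chi _ _).sub (measurable_chi _ _)).const_mul _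

theorem integrable_haar (j k : ℤ) : Integrable (haar j k) :=
  ((integrable_chi _ _).sub (integrable_chi _ _)).const_mul _

theorem integral_haar (j k : ℤ) : ∫ x, haar j k x = 0 := by
  unfold haar
  rw [integral_const_mul, integral_sub (integrable_chi _ _) (integrable_chi _ _), integral_chi,
    integral_chi, sub_self, mul_zero]

/-- Floors at a coarser scale. -/
theorem floor_coarse (i : ℤ) (n : ℕ) (x : ℝ) :
    ⌊x / 2 ^ (i + n)⌋ = ⌊x / 2 ^ i⌋ / 2 ^ n := by
  have h : x / 2 ^ (i + n) = (x / 2 ^ i) / ((2 ^ n : ℕ) : ℝ) := by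
    rw [zpow_add₀ (two_ne_zero), div_mul_eq_div_div]
    push_cast
    rw [zpow_natCast]
  rw [h, Int.floor_div_natCast]
  push_cast
  rfl

theorem chi_split (j k : ℤ) (x : ℝ) :
    chi j k x = chi (j - 1) (2 * k) x + chi (j - 1) (2 * k + 1) x := by
  rw [chi_eq, chi_eq, chi_eq]
  have h := floor_coarse (j - 1) 1 x
  have e : j - 1 + (1 : ℕ) = j := by push_cast; ring
  rw [e, pow_one] at h
  rw [h]
  split_ifs <;> first | omega | norm_num

theorem chi_mul_same (j k l : ℤ) (x : ℝ) :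
    chi j k x * chi j l x = if k = l then chi j k x else 0 := by
  rw [chi_eq, chi_eq]
  split_ifs <;> first | omega | norm_num

theorem chi_mul_coarse (i : ℤ) (n : ℕ) (k l : ℤ) (x : ℝ) :
    chi i k x * chi (i + n) l x = (if k / 2 ^ n = l then 1 else 0) * chi i k x := by
  rw [chi_eq, chi_eq, floor_coarse]
  by_cases h : ⌊x / 2 ^ i⌋ = k
  · rw [h]; ring
  · rw [if_neg h]; ring

theorem haar_mul_coarse (i : ℤ) (n : ℕ) (k l : ℤ) (x : ℝ) :
    haar i k x * chi (i + n) l x = (if k / 2 ^ n = l then 1 else 0) * haar i k x := by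
  have h1 := chi_mul_coarse (i - 1) (n + 1) (2 * k) l x
  have h2 := chi_mul_coarse (i - 1) (n + 1) (2 * k + 1) l x
  have e : i - 1 + ((n + 1 : ℕ) : ℤ) = i + n := by push_cast; ring
  rw [e] at h1 h2
  have e1 : (2 * k) / 2 ^ (n + 1) = k / 2 ^ n := by
    rw [pow_succ, mul_comm (2 ^ n) 2, ← Int.ediv_ediv_of_nonneg (by norm_num)]
    congr 1
    omega
  have e2 : (2 * k + 1) / 2 ^ (n + 1) = k / 2 ^ n := by
    rw [pow_succ, mul_comm (2 ^ n) 2, ← Int.ediv_ediv_of_nonneg (by norm_num)]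
    congr 1
    omega
  rw [e1] at h1
  rw [e2] at h2
  unfold haar
  linear_combination (Real.sqrt (2 ^ i))⁻¹ * h2 - (Real.sqrt (2 ^ i))⁻¹ * h1

/-- A Haar function times a Haar function of larger scale is a multiple of the former. -/
theorem haar_mul_haar_coarse (i : ℤ) (n : ℕ) (k l : ℤ) :
    ∃ c : ℝ, ∀ x, haar i k x * haar (i + (n + 1 : ℕ)) l x = c * haar i k x := by
  refine ⟨(Real.sqrt (2 ^ (i + (n + 1 : ℕ))))⁻¹ *
    ((if k / 2 ^ n = 2 * l + 1 then 1 else 0) - (if k / 2 ^ n = 2 * l then 1 else 0)), fun x => ?_⟩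
  have h1 := haar_mul_coarse i n k (2 * l + 1) x
  have h2 := haar_mul_coarse i n k (2 * l) x
  have e : i + (n + 1 : ℕ) - 1 = i + n := by push_cast; ring
  rw [show haar (i + (n + 1 : ℕ)) l x = (Real.sqrt (2 ^ (i + (n + 1 : ℕ))))⁻¹ *
    (chi (i + (n + 1 : ℕ) - 1) (2 * l + 1) x - chi (i + (n + 1 : ℕ) - 1) (2 * l) x) from rfl, e]
  linear_combination (Real.sqrt (2 ^ (i + (n + 1 : ℕ))))⁻¹ * h1 -
    (Real.sqrt (2 ^ (i + (n + 1 : ℕ))))⁻¹ * h2

theorem sqrt_inv_sq (j : ℤ) : (Real.sqrt (2 ^ j))⁻¹ * (Real.sqrt (2 ^ j))⁻¹ = (2 ^ j)⁻¹ := by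
  rw [← mul_inv, Real.mul_self_sqrt (two_zpow_pos j).le]

theorem haar_mul_same (j k l : ℤ) (x : ℝ) :
    haar j k x * haar j l x = if k = l then (2 ^ j : ℝ)⁻¹ * chi j k x else 0 := by
  have h1 := chi_mul_same (j - 1) (2 * k + 1) (2 * l + 1) x
  have h2 := chi_mul_same (j - 1) (2 * k) (2 * l) x
  have h3 := chi_mul_same (j - 1) (2 * k + 1) (2 * l) x
  have h4 := chi_mul_same (j - 1) (2 * k) (2 * l + 1) x
  rw [if_neg (by omega)] at h3 h4
  have hs := sqrt_inv_sq j
  unfold haar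
  by_cases h : k = l
  · subst h
    rw [if_pos rfl] at h1 h2
    rw [if_pos rfl, chi_split j k x]
    linear_combination ((Real.sqrt (2 ^ j))⁻¹ * (Real.sqrt (2 ^ j))⁻¹) * (h1 + h2 - h3 - h4) +
      (chi (j - 1) (2 * k) x + chi (j - 1) (2 * k + 1) x) * hs
  · rw [if_neg (by omega)] at h1 h2
    rw [if_neg h]
    linear_combination ((Real.sqrt (2 ^ j))⁻¹ * (Real.sqrt (2 ^ j))⁻¹) * (h1 + h2 - h3 - h4)

theorem integral_haar_mul_same (j k l : ℤ) :
    ∫ x, haar j k x * haar j l x = if k = l then 1 else 0 := by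
  simp_rw [haar_mul_same]
  by_cases h : k = l
  · simp only [h, if_true]
    rw [integral_const_mul, integral_chi, inv_mul_cancel₀ (two_zpow_pos j).ne']
  · simp [h]

theorem integral_haar_mul_lt (i j k l : ℤ) (h : i < j) : ∫ x, haar i k x * haar j l x = 0 := by
  obtain ⟨n, hn⟩ : ∃ n : ℕ, j = i + (n + 1 : ℕ) := by
    refine ⟨(j - i - 1).toNat, ?_⟩
    omega
  obtain ⟨c, hc⟩ := haar_mul_haar_coarse i n k l
  rw [hn]
  simp_rw [hc]
  rw [integral_const_mul, integral_haar, mul_zero]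

/-- Orthonormality of the Haar system. -/
theorem integral_haar_mul (i k j l : ℤ) :
    ∫ x, haar i k x * haar j l x = if i = j ∧ k = l then 1 else 0 := by
  rcases lt_trichotomy i j with h | h | h
  · rw [integral_haar_mul_lt i j k l h, if_neg (by omega)]
  · subst h
    rw [integral_haar_mul_same]
    simp
  · simp_rw [mul_comm (haar i k _)]
    rw [integral_haar_mul_lt j i l k h, if_neg (by omega)]

theorem abs_chi_le (j k : ℤ) (x : ℝ) : |chi j k x| ≤ 1 := by
  rw [chi_eq]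
  split_ifs <;> simp

theorem abs_haar_le (j k : ℤ) (x : ℝ) : |haar j k x| ≤ 2 * (Real.sqrt (2 ^ j))⁻¹ := by
  unfold haar
  rw [abs_mul, abs_of_nonneg (by positivity : (0 : ℝ) ≤ (Real.sqrt (2 ^ j))⁻¹), mul_comm]
  refine mul_le_mul_of_nonneg_right ?_ (by positivity)
  have h1 := abs_chi_le (j - 1) (2 * k + 1) x
  have h2 := abs_chi_le (j - 1) (2 * k) x
  have := abs_sub (chi (j - 1) (2 * k + 1) x) (chi (j - 1) (2 * k) x)
  linarith

end Pool.Agent.X91.Haar
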