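import Pool.Agent.X91.Haar

/-!
Dyadic martingales in `L²`: convergence of the dyadic square sums, completeness of the Haar system.
-/

open MeasureTheory Set Filter Topology

namespace Pool.Agent.X91.Haar

/-- Integral over a dyadic interval. -/
noncomputable def M (F : ℝ → ℝ) (j k : ℤ) : ℝ := ∫ x in dy j k, F x

/-- Sum over the descendants of depth `n`. -/
def Lev (Φ : ℤ → ℤ → ℝ) : ℕ → ℤ → ℤ → ℝ
  | 0, j, k => Φ j k
  | n + 1, j, k => Lev Φ n (j - 1) (2 * k) + Lev Φ n (j - 1) (2 * k + 1)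

theorem dy_split (j k : ℤ) : dy j k = dy (j - 1) (2 * k) ∪ dy (j - 1) (2 * k + 1) := by
  ext x
  rw [mem_union, mem_dy, mem_dy, mem_dy]
  have h := floor_coarse (j - 1) 1 x
  have e : j - 1 + (1 : ℕ) = j := by push_cast; ring
  rw [e, pow_one] at h
  rw [h]
  omega

theorem dy_disj (j k l : ℤ) (h : k ≠ l) : Disjoint (dy j k) (dy j l) := by
  rw [Set.disjoint_left]
  intro x h1 h2
  rw [mem_dy] at h1 h2
  exact h (h1.symm.trans h2)

theorem M_split (F : ℝ → ℝ) (hF : ∀ j k, IntegrableOn F (dy j k)) (j k : ℤ) :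
    M F j k = M F (j - 1) (2 * k) + M F (j - 1) (2 * k + 1) := by
  unfold M
  rw [dy_split, setIntegral_union (dy_disj _ _ _ (by omega)) (measurableSet_dy _ _) (hF _ _) (hF _ _)]

theorem Lev_additive (Φ : ℤ → ℤ → ℝ)
    (h : ∀ j k, Φ j k = Φ (j - 1) (2 * k) + Φ (j - 1) (2 * k + 1)) (n : ℕ) (j k : ℤ) :
    Lev Φ n j k = Φ j k := by
  induction n generalizing j k with
  | zero => rfl
  | succ n ih =>
    unfold Lev
    rw [ih, ih, ← h]

theorem Lev_mono {Φ Ψ : ℤ → ℤ → ℝ} (n : ℕ) (j k : ℤ)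
    (h : ∀ l, Φ (j - n) l ≤ Ψ (j - n) l) : Lev Φ n j k ≤ Lev Ψ n j k := by
  induction n generalizing j k with
  | zero => simpa [Lev] using h k
  | succ n ih =>
    unfold Lev
    have h' : ∀ l, Φ (j - 1 - n) l ≤ Ψ (j - 1 - n) l := by
      intro l
      have := h l
      rwa [show j - ((n + 1 : ℕ) : ℤ) = j - 1 - n by push_cast; ring] at this
    exact add_le_add (ih _ _ h') (ih _ _ h')

theorem Lev_add (Φ Ψ : ℤ → ℤ → ℝ) (n : ℕ) (j k : ℤ) :
    Lev (fun j k => Φ j k + Ψ j k) n j k = Lev Φ n j k + Lev Ψ n j k := by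
  induction n generalizing j k with
  | zero => rfl
  | succ n ih =>
    unfold Lev
    rw [ih, ih]
    ring

theorem Lev_sub (Φ Ψ : ℤ → ℤ → ℝ) (n : ℕ) (j k : ℤ) :
    Lev (fun j k => Φ j k - Ψ j k) n j k = Lev Φ n j k - Lev Ψ n j k := by
  induction n generalizing j k with
  | zero => rfl
  | succ n ih =>
    unfold Lev
    rw [ih, ih]
    ring

theorem Lev_smul (c : ℝ) (Φ : ℤ → ℤ → ℝ) (n : ℕ) (j k : ℤ) :
    Lev (fun j k => c * Φ j k) n j k = c * Lev Φ n j k := by
  induction n generalizing j k with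
  | zero => rfl
  | succ n ih =>
    unfold Lev
    rw [ih, ih]
    ring

theorem Lev_abs (Φ : ℤ → ℤ → ℝ) (n : ℕ) (j k : ℤ) :
    |Lev Φ n j k| ≤ Lev (fun j k => |Φ j k|) n j k := by
  induction n generalizing j k with
  | zero => exact le_refl _
  | succ n ih =>
    unfold Lev
    exact (abs_add_le _ _).trans (add_le_add (ih _ _) (ih _ _))

theorem Lev_nonneg {Φ : ℤ → ℤ → ℝ} (n : ℕ) (j k : ℤ) (h : ∀ j k, 0 ≤ Φ j k) :
    0 ≤ Lev Φ n j k := by
  induction n generalizing j k with
  | zero => exact h _ _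
  | succ n ih =>
    unfold Lev
    exact add_nonneg (ih _ _) (ih _ _)

theorem Lev_succ' (Φ : ℤ → ℤ → ℝ) (n : ℕ) (j k : ℤ) :
    Lev Φ (n + 1) j k = Lev (fun j k => Φ (j - 1) (2 * k) + Φ (j - 1) (2 * k + 1)) n j k := by
  induction n generalizing j k with
  | zero => rfl
  | succ n ih =>
    rw [show Lev Φ (n + 1 + 1) j k = Lev Φ (n + 1) (j - 1) (2 * k) + Lev Φ (n + 1) (j - 1) (2 * k + 1)
      from rfl, ih, ih]
    rfl

section L2

variable {F G : ℝ → ℝ}

theorem memLp_on (hF : MemLp F 2 volume) (j k : ℤ) : MemLp F 2 (volume.restrict (dy j k)) :=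
  hF.restrict _

instance (j k : ℤ) : IsFiniteMeasure (volume.restrict (dy j k)) := ⟨by
  rw [Measure.restrict_apply_univ, volume_dy]
  exact ENNReal.ofReal_lt_top⟩

theorem intOn (hF : MemLp F 2 volume) (j k : ℤ) : IntegrableOn F (dy j k) :=
  (memLp_on hF j k).integrable (by norm_num)

theorem intSq (hF : MemLp F 2 volume) (j k : ℤ) : IntegrableOn (fun x => F x ^ 2) (dy j k) :=
  (memLp_on hF j k).integrable_sq

theorem intMul (hF : MemLp F 2 volume) (hG : MemLp G 2 volume) :
    Integrable (fun x => F x * G x) := by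
  have := hG.integrable_mul hF
  refine this.congr (Filter.Eventually.of_forall fun x => ?_)
  simp [mul_comm]

/-- Jensen. -/
theorem M_sq_le (hF : MemLp F 2 volume) (j k : ℤ) :
    M F j k ^ 2 / 2 ^ j ≤ M (fun x => F x ^ 2) j k := by
  have hp := two_zpow_pos j
  set c := M F j k / 2 ^ j with hc
  have h1 : 0 ≤ ∫ x in dy j k, (F x - c) ^ 2 := integral_nonneg fun x => sq_nonneg _
  have h2 : ∫ x in dy j k, (F x - c) ^ 2 =
      M (fun x => F x ^ 2) j k - 2 * c * M F j k + c ^ 2 * 2 ^ j := by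
    have e : ∀ x, (F x - c) ^ 2 = (F x ^ 2 - 2 * c * F x) + c ^ 2 := fun x => by ring
    simp_rw [e]
    have i1 : IntegrableOn (fun x => F x ^ 2 - 2 * c * F x) (dy j k) :=
      (intSq hF j k).sub ((intOn hF j k).const_mul _)
    rw [integral_add i1 (integrable_const _),
      integral_sub (intSq hF j k) ((intOn hF j k).const_mul _), integral_const_mul,
      setIntegral_const, Measure.real, volume_dy, ENNReal.toReal_ofReal hp.le]
    unfold M
    simp only [smul_eq_mul]
    ring
  rw [h2] at h1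
  have h3 : c * 2 ^ j = M F j k := by rw [hc]; field_simp
  have h4 : M F j k ^ 2 / 2 ^ j = c * M F j k := by rw [hc]; ring
  have h5 : c ^ 2 * 2 ^ j = c * M F j k := by rw [← h3]; ring
  rw [h4]
  linarith

theorem Lev_sq_le (hF : MemLp F 2 volume) (n : ℕ) (j k : ℤ) :
    Lev (fun j k => M F j k ^ 2 / 2 ^ j) n j k ≤ M (fun x => F x ^ 2) j k := by
  have h1 := Lev_additive (M fun x => F x ^ 2) (M_split _ (intSq hF)) n j k
  rw [← h1]
  exact Lev_mono n j k fun l => M_sq_le hF _ _

/-- Cauchy–Schwarz with a parameter. -/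
theorem Lev_mul_le (hF : MemLp F 2 volume) (hG : MemLp G 2 volume) (t : ℝ) (ht : 0 < t) (n : ℕ)
    (j k : ℤ) : |Lev (fun j k => M F j k * M G j k / 2 ^ j) n j k| ≤
      (t * M (fun x => F x ^ 2) j k + t⁻¹ * M (fun x => G x ^ 2) j k) / 2 := by
  have h1 : Lev (fun j k => |M F j k * M G j k / 2 ^ j|) n j k ≤
      Lev (fun j k => (t / 2) * (M F j k ^ 2 / 2 ^ j) + (t⁻¹ / 2) * (M G j k ^ 2 / 2 ^ j)) n j k := by
    refine Lev_mono n j k fun l => ?_
    have hp := two_zpow_pos (j - n)
    rw [abs_div, abs_of_pos hp, ← mul_div_assoc, ← mul_div_assoc, ← add_div]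
    refine div_le_div_of_nonneg_right ?_ hp.le
    rw [abs_mul]
    have h2 : 0 ≤ (t * |M F (j - n) l| - |M G (j - n) l|) ^ 2 := sq_nonneg _
    have h3 := sq_abs (M F (j - n) l)
    have h4 := sq_abs (M G (j - n) l)
    have h5 : t * t⁻¹ = 1 := mul_inv_cancel₀ ht.ne'
    have h6 : 0 < t⁻¹ := by positivity
    have h7 := mul_nonneg h6.le h2
    have h8 : t⁻¹ * (t * |M F (j - n) l| - |M G (j - n) l|) ^ 2 =
        t * |M F (j - n) l| ^ 2 - 2 * |M F (j - n) l| * |M G (j - n) l| +
          t⁻¹ * |M G (j - n) l| ^ 2 := by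
      field_simp
      ring
    rw [h8, h3, h4] at h7
    linarith
  refine (Lev_abs _ n j k).trans (h1.trans ?_)
  rw [Lev_add, Lev_smul, Lev_smul]
  have h2 := Lev_sq_le hF n j k
  have h3 := Lev_sq_le hG n j k
  have h4 : 0 < t⁻¹ := by positivity
  nlinarith

theorem M_sq_nonneg (j k : ℤ) : 0 ≤ M (fun x => F x ^ 2) j k :=
  integral_nonneg fun x => sq_nonneg _

theorem M_mul_le (hF : MemLp F 2 volume) (hG : MemLp G 2 volume) (t : ℝ) (ht : 0 < t)
    (j k : ℤ) : |M (fun x => F x * G x) j k| ≤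
      (t * M (fun x => F x ^ 2) j k + t⁻¹ * M (fun x => G x ^ 2) j k) / 2 := by
  have h1 : |M (fun x => F x * G x) j k| ≤ ∫ x in dy j k, |F x * G x| :=
    abs_integral_le_integral_abs
  refine h1.trans ?_
  have h2 : ∫ x in dy j k, |F x * G x| ≤
      ∫ x in dy j k, ((t / 2) * F x ^ 2 + (t⁻¹ / 2) * G x ^ 2) := by
    refine setIntegral_mono (intMul hF hG).abs.integrableOn
      (((intSq hF j k).const_mul _).add ((intSq hG j k).const_mul _)) fun x => ?_
    simp only
    rw [abs_mul]
    have h2 : 0 ≤ (t * |F x| - |G x|) ^ 2 := sq_nonneg _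
    have h3 := sq_abs (F x)
    have h4 := sq_abs (G x)
    have h6 : 0 < t⁻¹ := by positivity
    have h7 := mul_nonneg h6.le h2
    have h8 : t⁻¹ * (t * |F x| - |G x|) ^ 2 =
        t * |F x| ^ 2 - 2 * |F x| * |G x| + t⁻¹ * |G x| ^ 2 := by
      field_simp
      ring
    rw [h8, h3, h4] at h7
    linarith
  rw [integral_add ((intSq hF j k).const_mul _) ((intSq hG j k).const_mul _), integral_const_mul,
    integral_const_mul] at h2
  unfold M
  linarith

/-- Convergence for continuous functions with compact support. -/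
theorem Lev_tendsto_cont (hF : Continuous F) (hFs : HasCompactSupport F) (hG : MemLp G 2 volume)
    (j k : ℤ) : Tendsto (fun n => Lev (fun j k => M F j k * M G j k / 2 ^ j) n j k) atTop
      (𝓝 (M (fun x => F x * G x) j k)) := by
  have hFL : MemLp F 2 volume := hF.memLp_of_hasCompactSupport hFs
  have huc : UniformContinuous F := hFs.uniformContinuous_of_continuous hF
  have hFG : ∀ j k, IntegrableOn (fun x => F x * G x) (dy j k) := fun j k =>
    (intMul hFL hG).integrableOn
  have hGa : ∀ j k, IntegrableOn (fun x => |G x|) (dy j k) := fun j k => (intOn hG j k).abs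
  rw [Metric.tendsto_atTop]
  intro ε hε
  set A := M (fun x => |G x|) j k with hA
  have hA0 : 0 ≤ A := integral_nonneg fun x => abs_nonneg _
  obtain ⟨δ, hδ, hunif⟩ := Metric.uniformContinuous_iff.mp huc (ε / (A + 1)) (by positivity)
  obtain ⟨N, hN⟩ := exists_pow_lt_of_lt_one (show 0 < δ / 2 ^ j by have := two_zpow_pos j; positivity)
    (by norm_num : (1 / 2 : ℝ) < 1)
  refine ⟨N, fun n hn => ?_⟩
  have hsize : (2 : ℝ) ^ (j - n) < δ := by
    have h1 : (1 / 2 : ℝ) ^ n ≤ (1 / 2) ^ N := pow_le_pow_of_le_one (by norm_num) (by norm_num) hn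
    have h2 : (2 : ℝ) ^ (j - n) = 2 ^ j * (1 / 2) ^ n := by
      rw [zpow_sub₀ two_ne_zero, zpow_natCast, one_div, inv_pow]
      rfl
    rw [h2]
    rw [lt_div_iff₀ (two_zpow_pos j)] at hN
    have := two_zpow_pos j
    nlinarith
  rw [Real.dist_eq, ← Lev_additive (M fun x => F x * G x) (M_split _ hFG) n j k, ← Lev_sub]
  refine lt_of_le_of_lt (Lev_abs _ n j k) ?_
  have h3 : Lev (fun j k => |M F j k * M G j k / 2 ^ j - M (fun x => F x * G x) j k|) n j k ≤
      Lev (fun j k => (ε / (A + 1)) * M (fun x => |G x|) j k) n j k := by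
    refine Lev_mono n j k fun l => ?_
    have hp := two_zpow_pos (j - n)
    have h4 : M F (j - n) l * M G (j - n) l / 2 ^ (j - (n : ℤ)) - M (fun x => F x * G x) (j - n) l =
        ∫ x in dy (j - n) l, (M F (j - n) l / 2 ^ (j - (n : ℤ)) - F x) * G x := by
      have e : ∀ x, (M F (j - n) l / 2 ^ (j - (n : ℤ)) - F x) * G x =
          M F (j - n) l / 2 ^ (j - (n : ℤ)) * G x - F x * G x := fun x => by ring
      simp_rw [e]
      rw [integral_sub ((intOn hG _ _).const_mul _) (hFG _ _), integral_const_mul]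
      unfold M
      ring
    rw [h4]
    have h5 : ∀ x ∈ dy (j - n) l, |M F (j - n) l / 2 ^ (j - (n : ℤ)) - F x| ≤ ε / (A + 1) := by
      intro x hx
      have h6 : M F (j - n) l / 2 ^ (j - (n : ℤ)) - F x =
          (∫ t in dy (j - n) l, (F t - F x)) / 2 ^ (j - (n : ℤ)) := by
        rw [integral_sub (intOn hFL _ _) (integrable_const _), setIntegral_const, Measure.real,
          volume_dy, ENNReal.toReal_ofReal hp.le, smul_eq_mul, sub_div]
        unfold M
        field_simp
      rw [h6, abs_div, abs_of_pos hp, div_le_iff₀ hp]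
      have h7 : ‖∫ t in dy (j - n) l, (F t - F x)‖ ≤
          (ε / (A + 1)) * (volume.real (dy (j - n) l)) := by
        refine norm_setIntegral_le_of_norm_le_const ?_ ?_
        · rw [volume_dy]
          exact ENNReal.ofReal_lt_top
        · intro t ht
          have h8 : dist t x < δ := by
            unfold dy at ht hx
            rw [mem_Ico] at ht hx
            rw [Real.dist_eq, abs_lt]
            constructor <;> nlinarith [ht.1, ht.2, hx.1, hx.2]
          have := hunif h8
          rw [Real.dist_eq] at this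
          exact this.le
      rw [Measure.real, volume_dy, ENNReal.toReal_ofReal hp.le, Real.norm_eq_abs] at h7
      exact h7
    refine (abs_integral_le_integral_abs).trans ?_
    have h9 : ∫ x in dy (j - n) l, |(M F (j - n) l / 2 ^ (j - (n : ℤ)) - F x) * G x| ≤
        ∫ x in dy (j - n) l, (ε / (A + 1)) * |G x| := by
      refine setIntegral_mono_on ?_ ((hGa _ _).const_mul _) (measurableSet_dy _ _) ?_
      · have e : ∀ x, (M F (j - n) l / 2 ^ (j - (n : ℤ)) - F x) * G x =
          M F (j - n) l / 2 ^ (j - (n : ℤ)) * G x - F x * G x := fun x => by ring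
        simp_rw [e]
        exact (((intOn hG _ _).const_mul _).sub (hFG _ _)).abs
      · intro x hx
        rw [abs_mul]
        exact mul_le_mul_of_nonneg_right (h5 x hx) (abs_nonneg _)
    refine h9.trans (le_of_eq ?_)
    rw [integral_const_mul]
    rfl
  refine lt_of_le_of_lt h3 ?_
  rw [Lev_smul, Lev_additive (M fun x => |G x|) (M_split _ hGa) n j k, ← hA, div_mul_eq_mul_div,
    div_lt_iff₀ (by positivity)]
  nlinarith

theorem M_sub (hF : MemLp F 2 volume) (hG : MemLp G 2 volume) (j k : ℤ) :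
    M (fun x => F x - G x) j k = M F j k - M G j k := by
  unfold M
  exact integral_sub (intOn hF j k) (intOn hG j k)

/-- Convergence in general. -/
theorem Lev_tendsto (hF : MemLp F 2 volume) (hG : MemLp G 2 volume) (j k : ℤ) :
    Tendsto (fun n => Lev (fun j k => M F j k * M G j k / 2 ^ j) n j k) atTop
      (𝓝 (M (fun x => F x * G x) j k)) := by
  rw [Metric.tendsto_atTop]
  intro ε hε
  set B := M (fun x => G x ^ 2) j k with hB
  have hB0 : 0 ≤ B := M_sq_nonneg j k
  set η := ε / (2 * (1 + B)) with hη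
  have hη0 : 0 < η := by positivity
  obtain ⟨F', hs, hle, hc, hmem⟩ := (show MemLp F (ENNReal.ofReal 2) volume by
    simpa using hF).exists_hasCompactSupport_integral_rpow_sub_le (by norm_num)
    (ε := η ^ 2) (by positivity)
  have hmem2 : MemLp F' 2 volume := by simpa using hmem
  have hD : MemLp (fun x => F x - F' x) 2 volume := hF.sub hmem2
  have hDsq : M (fun x => (F x - F' x) ^ 2) j k ≤ η ^ 2 := by
    have h1 : M (fun x => (F x - F' x) ^ 2) j k ≤ ∫ x, (F x - F' x) ^ 2 := by
      unfold M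
      exact setIntegral_le_integral hD.integrable_sq (Eventually.of_forall fun x => sq_nonneg _)
    refine h1.trans (le_trans (le_of_eq ?_) hle)
    refine integral_congr_ae (Eventually.of_forall fun x => ?_)
    simp only
    rw [Real.rpow_two, Real.norm_eq_abs, sq_abs]
  have hsmall : ∀ t : ℝ, t = (t : ℝ) → (η⁻¹ * M (fun x => (F x - F' x) ^ 2) j k +
      η⁻¹⁻¹ * M (fun x => G x ^ 2) j k) / 2 ≤ ε / 4 := by
    intro _ _
    rw [inv_inv, ← hB]
    have h1 : η⁻¹ * M (fun x => (F x - F' x) ^ 2) j k ≤ η := by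
      calc η⁻¹ * M (fun x => (F x - F' x) ^ 2) j k ≤ η⁻¹ * η ^ 2 :=
            mul_le_mul_of_nonneg_left hDsq (by positivity)
        _ = η := by field_simp
    have h2 : η * (1 + B) = ε / 2 := by rw [hη]; field_simp
    nlinarith
  obtain ⟨N, hN⟩ := Metric.tendsto_atTop.mp (Lev_tendsto_cont hc hs hG j k) (ε / 4) (by positivity)
  refine ⟨N, fun n hn => ?_⟩
  have h1 := hN n hn
  have h2 := Lev_mul_le hD hG η⁻¹ (by positivity) n j k
  have h3 := M_mul_le hD hG η⁻¹ (by positivity) j k
  have h4 := hsmall 0 rfl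
  have h5 : Lev (fun j k => M (fun x => F x - F' x) j k * M G j k / 2 ^ j) n j k =
      Lev (fun j k => M F j k * M G j k / 2 ^ j) n j k -
        Lev (fun j k => M F' j k * M G j k / 2 ^ j) n j k := by
    rw [← Lev_sub]
    congr 1
    funext j k
    rw [M_sub hF hmem2]
    ring
  have h6 : M (fun x => (F x - F' x) * G x) j k =
      M (fun x => F x * G x) j k - M (fun x => F' x * G x) j k := by
    unfold M
    rw [← integral_sub (intMul hF hG).integrableOn (intMul hmem2 hG).integrableOn]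
    congr 1
    funext x
    ring
  rw [h5] at h2
  rw [h6] at h3
  rw [Real.dist_eq] at h1 ⊢
  rw [abs_lt] at h1 ⊢
  rw [abs_le] at h2 h3
  constructor <;> linarith [h1.1, h1.2, h2.1, h2.2, h3.1, h3.2]

end L2

end Pool.Agent.X91.Haar
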