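import Pool.Agent.X91.Mart

/-!
The Haar shift on `L²(ℝ)`: existence, uniqueness, antisymmetry, isometry.
-/

set_option autoImplicit false

open MeasureTheory Set Filter Topology
open scoped RealInnerProductSpace

namespace Pool.Agent.X91.Haar

theorem memLp_haar (j k : ℤ) : MemLp (haar j k) 2 volume := by
  rw [memLp_two_iff_integrable_sq (measurable_haar j k).aestronglyMeasurable]
  have h : (fun x => haar j k x ^ 2) = fun x => (2 ^ j : ℝ)⁻¹ * chi j k x := by
    funext x
    have := haar_mul_same j k k x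
    rw [if_pos rfl] at this
    rw [sq, this]
  rw [h]
  exact (integrable_chi j k).const_mul _

/-- Haar functions as elements of `L²`. -/
noncomputable def eh (i : ℤ × ℤ) : Lp ℝ 2 (volume : Measure ℝ) :=
  MemLp.toLp (haar i.1 i.2) (memLp_haar _ _)

theorem eh_coe (i : ℤ × ℤ) : (eh i : ℝ → ℝ) =ᵐ[volume] haar i.1 i.2 := MemLp.coeFn_toLp _

theorem inner_eh (i : ℤ × ℤ) (F : Lp ℝ 2 (volume : Measure ℝ)) :
    ⟪eh i, F⟫ = ∫ x, haar i.1 i.2 x * (F : ℝ → ℝ) x := by
  rw [L2.inner_def]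
  refine integral_congr_ae ?_
  filter_upwards [eh_coe i] with z h1
  rw [h1]
  simp only [RCLike.inner_apply, conj_trivial]
  ring

theorem inner_eh_M (i : ℤ × ℤ) (F : Lp ℝ 2 (volume : Measure ℝ)) :
    ⟪eh i, F⟫ = (Real.sqrt (2 ^ i.1))⁻¹ * (M F (i.1 - 1) (2 * i.2 + 1) - M F (i.1 - 1) (2 * i.2)) := by
  rw [inner_eh]
  have e : ∀ x, haar i.1 i.2 x * (F : ℝ → ℝ) x = (Real.sqrt (2 ^ i.1))⁻¹ *
      ((dy (i.1 - 1) (2 * i.2 + 1)).indicator (F : ℝ → ℝ) x -
        (dy (i.1 - 1) (2 * i.2)).indicator (F : ℝ → ℝ) x) := by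
    intro x
    unfold haar chi
    by_cases h1 : x ∈ dy (i.1 - 1) (2 * i.2 + 1) <;> by_cases h2 : x ∈ dy (i.1 - 1) (2 * i.2) <;>
      simp [h1, h2]
  simp_rw [e]
  have hF : MemLp (F : ℝ → ℝ) 2 volume := Lp.memLp F
  rw [integral_const_mul, integral_sub, integral_indicator (measurableSet_dy _ _),
    integral_indicator (measurableSet_dy _ _)]
  · rfl
  · exact (intOn hF _ _).integrable_indicator (measurableSet_dy _ _)
  · exact (intOn hF _ _).integrable_indicator (measurableSet_dy _ _)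

theorem inner_eh_eh (a b : ℤ × ℤ) : ⟪eh a, eh b⟫ = if a = b then (1 : ℝ) else 0 := by
  rw [inner_eh]
  have h1 : ∫ x, haar a.1 a.2 x * (eh b : ℝ → ℝ) x = ∫ x, haar a.1 a.2 x * haar b.1 b.2 x := by
    refine integral_congr_ae ?_
    filter_upwards [eh_coe b] with z h1
    rw [h1]
  rw [h1, integral_haar_mul]
  obtain ⟨a1, a2⟩ := a
  obtain ⟨b1, b2⟩ := b
  simp only [Prod.mk.injEq]

theorem orthonormal_eh : Orthonormal ℝ eh := by
  rw [orthonormal_iff_ite]
  exact inner_eh_eh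

/-- The square of the average does not change when the Haar coefficients vanish. -/
theorem M_of_orth (F : Lp ℝ 2 (volume : Measure ℝ)) (h : ∀ i, ⟪eh i, F⟫ = 0) (j k : ℤ) :
    M F (j - 1) (2 * k) = M F j k / 2 ∧ M F (j - 1) (2 * k + 1) = M F j k / 2 := by
  have h1 := h (j, k)
  rw [inner_eh_M] at h1
  have hp := two_zpow_pos j
  have h2 : (Real.sqrt (2 ^ j))⁻¹ ≠ 0 := by positivity
  have h3 : M F (j - 1) (2 * k + 1) - M F (j - 1) (2 * k) = 0 := by
    rcases mul_eq_zero.mp h1 with h1 | h1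
    · exact absurd h1 h2
    · exact h1
  have h4 := M_split F (intOn (Lp.memLp F)) j k
  constructor <;> linarith

/-- Going up. -/
theorem M_up (F : Lp ℝ 2 (volume : Measure ℝ)) (h : ∀ i, ⟪eh i, F⟫ = 0) (n : ℕ) (j k : ℤ) :
    ∃ l, M F (j + n) l = 2 ^ n * M F j k := by
  induction n with
  | zero => exact ⟨k, by simp⟩
  | succ n ih =>
    obtain ⟨l, hl⟩ := ih
    have h1 := M_of_orth F h (j + n + 1) (l / 2)
    rw [show j + (n : ℤ) + 1 - 1 = j + n by ring] at h1
    refine ⟨l / 2, ?_⟩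
    rw [show j + ((n + 1 : ℕ) : ℤ) = j + n + 1 by push_cast; ring]
    rcases Int.even_or_odd l with he | ho
    · have e : 2 * (l / 2) = l := Int.mul_ediv_cancel' he.two_dvd
      rw [e] at h1
      have := h1.1
      rw [hl] at this
      rw [pow_succ]
      linarith
    · have e : 2 * (l / 2) + 1 = l := by
        obtain ⟨m, hm⟩ := ho
        omega
      rw [e] at h1
      have := h1.2
      rw [hl] at this
      rw [pow_succ]
      linarith

theorem M_eq_zero (F : Lp ℝ 2 (volume : Measure ℝ)) (h : ∀ i, ⟪eh i, F⟫ = 0) (j k : ℤ) :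
    M F j k = 0 := by
  set A := ∫ x, (F : ℝ → ℝ) x ^ 2 with hA
  have hF : MemLp (F : ℝ → ℝ) 2 volume := Lp.memLp F
  have h1 : ∀ n : ℕ, 2 ^ n * (M F j k ^ 2 / 2 ^ j) ≤ A := by
    intro n
    obtain ⟨l, hl⟩ := M_up F h n j k
    have h2 := M_sq_le hF (j + n) l
    have h3 : M (fun x => (F : ℝ → ℝ) x ^ 2) (j + n) l ≤ A := by
      unfold M
      exact setIntegral_le_integral hF.integrable_sq (Eventually.of_forall fun x => sq_nonneg _)
    rw [hl, zpow_add₀ two_ne_zero, zpow_natCast] at h2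
    have hp := two_zpow_pos j
    have h4 : (2 ^ n * M F j k) ^ 2 / (2 ^ j * 2 ^ n) = 2 ^ n * (M F j k ^ 2 / 2 ^ j) := by
      field_simp
    rw [h4] at h2
    linarith
  by_contra h0
  have hp := two_zpow_pos j
  have hc : 0 < M F j k ^ 2 / 2 ^ j := by positivity
  obtain ⟨n, hn⟩ := pow_unbounded_of_one_lt (A / (M F j k ^ 2 / 2 ^ j)) (by norm_num : (1 : ℝ) < 2)
  rw [div_lt_iff₀ hc] at hn
  linarith [h1 n]

/-- The half lines are exhausted. -/
theorem tendsto_two (f : ℝ → ℝ) (hf : Integrable f) :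
    Tendsto (fun n : ℕ => M f n 0 + M f n (-1)) atTop (𝓝 (∫ x, f x)) := by
  have h1 : ∀ n : ℕ, M f n 0 + M f n (-1) = ∫ x in dy n 0 ∪ dy n (-1), f x := by
    intro n
    unfold M
    rw [setIntegral_union (dy_disj _ _ _ (by omega)) (measurableSet_dy _ _) hf.integrableOn
      hf.integrableOn]
  simp_rw [h1]
  have hU : (⋃ n : ℕ, dy n 0 ∪ dy n (-1)) = univ := by
    rw [eq_univ_iff_forall]
    intro x
    rw [mem_iUnion]
    obtain ⟨n, hn⟩ := pow_unbounded_of_one_lt (|x|) (by norm_num : (1 : ℝ) < 2)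
    refine ⟨n, ?_⟩
    rw [abs_lt] at hn
    unfold dy
    rw [zpow_natCast]
    rcases le_or_gt 0 x with h | h
    · left
      rw [mem_Ico]
      push_cast
      constructor <;> linarith [hn.1, hn.2]
    · right
      rw [mem_Ico]
      push_cast
      constructor <;> linarith [hn.1, hn.2]
  have h2 := tendsto_setIntegral_of_monotone (μ := (volume : Measure ℝ)) (f := f)
    (s := fun n : ℕ => dy n 0 ∪ dy n (-1))
    (fun n => (measurableSet_dy _ _).union (measurableSet_dy _ _)) ?_ ?_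
  · rw [hU, setIntegral_univ] at h2
    exact h2
  · refine monotone_nat_of_le_succ fun n => ?_
    have e : ((n + 1 : ℕ) : ℤ) - 1 = n := by push_cast; ring
    rw [dy_split ((n + 1 : ℕ) : ℤ) 0, dy_split ((n + 1 : ℕ) : ℤ) (-1), e]
    rintro x (hx | hx)
    · exact Or.inl (Or.inl hx)
    · exact Or.inr (Or.inr hx)
  · exact hf.integrableOn

theorem sum_sq_zero (F : Lp ℝ 2 (volume : Measure ℝ)) (h : ∀ i, ⟪eh i, F⟫ = 0) : F = 0 := by
  have hF : MemLp (F : ℝ → ℝ) 2 volume := Lp.memLp F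
  have h0 := M_eq_zero F h
  have h1 : ∀ j k, M (fun x => (F : ℝ → ℝ) x * (F : ℝ → ℝ) x) j k = 0 := by
    intro j k
    have h2 := Lev_tendsto hF hF j k
    have h3 : (fun j k => M F j k * M F j k / 2 ^ j) = fun _ _ => (0 : ℝ) := by
      funext j k
      rw [h0]
      ring
    rw [h3] at h2
    have h4 : ∀ n, Lev (fun _ _ => (0 : ℝ)) n j k = 0 := by
      intro n
      exact Lev_additive _ (fun _ _ => by ring) n j k
    simp_rw [h4] at h2
    exact tendsto_nhds_unique h2 tendsto_const_nhds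
  have h2 := tendsto_two (fun x => (F : ℝ → ℝ) x * (F : ℝ → ℝ) x) (intMul hF hF)
  simp_rw [h1] at h2
  have h3 : ∫ x, (F : ℝ → ℝ) x * (F : ℝ → ℝ) x = 0 := by
    refine tendsto_nhds_unique h2 ?_
    simp
  have h4 : ⟪F, F⟫ = 0 := by
    rw [L2.inner_def, ← h3]
    refine integral_congr_ae (Eventually.of_forall fun x => ?_)
    simp only [RCLike.inner_apply, conj_trivial]
  exact inner_self_eq_zero.mp h4

theorem ext_inner_eh {F G : Lp ℝ 2 (volume : Measure ℝ)} (h : ∀ i, ⟪eh i, F⟫ = ⟪eh i, G⟫) : F = G := by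
  have := sum_sq_zero (F - G) (fun i => by rw [inner_sub_right, h i, sub_self])
  exact sub_eq_zero.mp this

theorem span_eh : (Submodule.span ℝ (Set.range eh)).topologicalClosure = ⊤ := by
  rw [Submodule.topologicalClosure_eq_top_iff, Submodule.eq_bot_iff]
  intro F hF
  refine sum_sq_zero F fun i => ?_
  exact hF (eh i) (Submodule.subset_span ⟨i, rfl⟩)

theorem clm_ext {E : Type*} [NormedAddCommGroup E] [NormedSpace ℝ E]
    {A B : Lp ℝ 2 (volume : Measure ℝ) →L[ℝ] E} (h : ∀ i, A (eh i) = B (eh i)) : A = B := by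
  refine ContinuousLinearMap.ext_on (s := Set.range eh) ?_ ?_
  · intro x
    have : x ∈ (Submodule.span ℝ (Set.range eh)).topologicalClosure := by
      rw [span_eh]
      trivial
    exact this
  · rintro _ ⟨i, rfl⟩
    exact h i

/-- The sibling of an index. -/
def sib (k : ℤ) : ℤ := if Even k then k + 1 else k - 1

/-- The sign in the Haar shift. -/
noncomputable def sg (k : ℤ) : ℝ := if Even k then -1 else 1

theorem sg_sq (k : ℤ) : sg k * sg k = 1 := by
  unfold sg
  split_ifs <;> norm_num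

theorem sib_sib (k : ℤ) : sib (sib k) = k := by
  unfold sib
  split_ifs with h1 h2 h2
  · rw [Int.even_iff] at h1 h2; omega
  · ring
  · ring
  · rw [Int.even_iff] at h1 h2; omega

theorem sg_sib (k : ℤ) : sg (sib k) = - sg k := by
  unfold sib sg
  split_ifs with h1 h2 h2
  · rw [Int.even_iff] at h1 h2; omega
  · norm_num
  · norm_num
  · rw [Int.even_iff] at h1 h2; omega

theorem sib_inj {k l : ℤ} (h : sib k = sib l) : k = l := by
  rw [← sib_sib k, h, sib_sib]

/-- The shifted system. -/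
noncomputable def eh' (i : ℤ × ℤ) : Lp ℝ 2 (volume : Measure ℝ) := sg i.2 • eh (i.1, sib i.2)

theorem orthonormal_eh' : Orthonormal ℝ eh' := by
  rw [orthonormal_iff_ite]
  intro a b
  unfold eh'
  rw [inner_smul_left, inner_smul_right, inner_eh_eh, conj_trivial]
  obtain ⟨a1, a2⟩ := a
  obtain ⟨b1, b2⟩ := b
  simp only [Prod.mk.injEq]
  by_cases h : a1 = b1 ∧ a2 = b2
  · obtain ⟨rfl, rfl⟩ := h
    have h1 := sg_sq a2
    simp only [and_self, if_true]
    linear_combination h1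
  · rw [if_neg h, if_neg, mul_zero, mul_zero]
    rintro ⟨h1, h2⟩
    exact h ⟨h1, sib_inj h2⟩

/-- The Haar shift exists. -/
theorem exists_shift : ∃ T : Lp ℝ 2 (volume : Measure ℝ) →L[ℝ] Lp ℝ 2 (volume : Measure ℝ),
    ∀ i, T (eh i) = eh' i := by
  classical
  let V₁ := orthonormal_eh.orthogonalFamily.linearIsometry
  let V₂ := orthonormal_eh'.orthogonalFamily.linearIsometry
  have h1 : ∀ i, V₁ (lp.single 2 i (1 : ℝ)) = eh i := by
    intro i
    rw [OrthogonalFamily.linearIsometry_apply_single]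
    simp
  have h2 : ∀ i, V₂ (lp.single 2 i (1 : ℝ)) = eh' i := by
    intro i
    rw [OrthogonalFamily.linearIsometry_apply_single]
    simp
  refine ⟨V₂.toContinuousLinearMap ∘L (ContinuousLinearMap.adjoint V₁.toContinuousLinearMap), ?_⟩
  intro i
  rw [ContinuousLinearMap.comp_apply]
  have h3 : (ContinuousLinearMap.adjoint V₁.toContinuousLinearMap) (eh i) =
      lp.single 2 i (1 : ℝ) := by
    refine ext_inner_right ℝ fun w => ?_
    rw [ContinuousLinearMap.adjoint_inner_left, ← h1 i]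
    exact V₁.inner_map_map _ _
  rw [h3]
  exact h2 i

section shift

variable {T : Lp ℝ 2 (volume : Measure ℝ) →L[ℝ] Lp ℝ 2 (volume : Measure ℝ)}

theorem shift_unique {T' : Lp ℝ 2 (volume : Measure ℝ) →L[ℝ] Lp ℝ 2 (volume : Measure ℝ)}
    (hT : ∀ i, T (eh i) = eh' i) (hT' : ∀ i, T' (eh i) = eh' i) : T = T' :=
  clm_ext fun i => by rw [hT, hT']

theorem inner_shift (hT : ∀ i, T (eh i) = eh' i) (a : ℤ × ℤ) (F : Lp ℝ 2 (volume : Measure ℝ)) :
    ⟪eh a, T F⟫ = - (sg a.2 * ⟪eh (a.1, sib a.2), F⟫) := by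
  have h : (innerSL ℝ (eh a)) ∘L T = - (sg a.2 • innerSL ℝ (eh (a.1, sib a.2))) := by
    refine clm_ext fun b => ?_
    rw [ContinuousLinearMap.comp_apply, ContinuousLinearMap.neg_apply,
      ContinuousLinearMap.smul_apply, innerSL_apply_apply, innerSL_apply_apply, hT]
    unfold eh'
    rw [inner_smul_right, inner_eh_eh, inner_eh_eh, smul_eq_mul]
    obtain ⟨a1, a2⟩ := a
    obtain ⟨b1, b2⟩ := b
    simp only [Prod.mk.injEq]
    by_cases h : a1 = b1 ∧ a2 = sib b2
    · obtain ⟨rfl, rfl⟩ := h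
      simp only [true_and, sib_sib, if_true, sg_sib]
      ring
    · rw [if_neg h, if_neg]
      · ring
      · rintro ⟨h1, h2⟩
        exact h ⟨h1, by rw [← h2, sib_sib]⟩
  have h2 := congrArg (fun A : Lp ℝ 2 (volume : Measure ℝ) →L[ℝ] ℝ => A F) h
  simpa using h2

theorem shift_shift (hT : ∀ i, T (eh i) = eh' i) (F : Lp ℝ 2 (volume : Measure ℝ)) :
    T (T F) = - F := by
  refine ext_inner_eh fun i => ?_
  rw [inner_shift hT, inner_shift hT, inner_neg_right, sg_sib, sib_sib]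
  have := sg_sq i.2
  linear_combination (-⟪eh i, F⟫) * this

theorem inner_shift_left (hT : ∀ i, T (eh i) = eh' i) (F G : Lp ℝ 2 (volume : Measure ℝ)) :
    ⟪T G, F⟫ = - ⟪G, T F⟫ := by
  have h : (innerSL ℝ F) ∘L T = - (innerSL ℝ (T F)) := by
    refine clm_ext fun b => ?_
    rw [ContinuousLinearMap.comp_apply, ContinuousLinearMap.neg_apply, innerSL_apply_apply,
      innerSL_apply_apply, hT, real_inner_comm _ (T F), inner_shift hT]
    unfold eh'
    rw [inner_smul_right, real_inner_comm]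
    ring
  have h2 := congrArg (fun A : Lp ℝ 2 (volume : Measure ℝ) →L[ℝ] ℝ => A G) h
  rw [real_inner_comm, real_inner_comm (T F)]
  simpa using h2

theorem shift_isometry (hT : ∀ i, T (eh i) = eh' i) (F : Lp ℝ 2 (volume : Measure ℝ)) :
    ⟪T F, T F⟫ = ⟪F, F⟫ := by
  rw [inner_shift_left hT, shift_shift hT, inner_neg_right, neg_neg]

end shift

end Pool.Agent.X91.Haar
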