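import Mathlib

/-!
A quantitative estimate for bounded harmonic maps into Euclidean space: distance to the
first-order part in terms of the defect in the Schwarz lemma.
-/

open Metric Set InnerProductSpace Real
open scoped ComplexConjugate

namespace Pool.Agent.X91.HarmEst

theorem norm_circleAverage_le (f : ℂ → ℂ) (R : ℝ) :
    ‖circleAverage f 0 R‖ ≤ circleAverage (fun z => ‖f z‖) 0 R := by
  rw [circleAverage, circleAverage, norm_smul, smul_eq_mul, Real.norm_of_nonneg (by positivity)]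
  refine mul_le_mul_of_nonneg_left ?_ (by positivity)
  exact intervalIntegral.norm_integral_le_integral_norm two_pi_pos.le

theorem circInt {E : Type*} [NormedAddCommGroup E] {f : ℂ → E} {s : ℝ} (hs0 : 0 < s) (hs : s < 1)
    (hf : ContinuousOn f (ball 0 1)) : CircleIntegrable f 0 s := by
  refine ContinuousOn.circleIntegrable hs0.le (hf.mono ?_)
  exact sphere_subset_ball hs

/-- Circle averages of holomorphic functions. -/
theorem avg_holo {f : ℂ → ℂ} {s : ℝ} (hs0 : 0 < s) (hs : s < 1)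
    (hf : DifferentiableOn ℂ f (ball 0 1)) : circleAverage f 0 s = f 0 := by
  have h : DiffContOnCl ℂ f (ball 0 |s|) := by
    rw [abs_of_pos hs0]
    apply DifferentiableOn.diffContOnCl
    rw [closure_ball _ hs0.ne']
    exact hf.mono (closedBall_subset_ball hs)
  exact h.circleAverage

theorem scalar (F : ℂ → ℂ) (hF : DifferentiableOn ℂ F (ball 0 1)) (h0 : F 0 = 0) (s : ℝ)
    (hs0 : 0 < s) (hs : s < 1) (w : ℂ) (hw : ‖w‖ < s) :
    ‖F w - deriv F 0 * w‖ ^ 2 ≤ (s / (s - ‖w‖)) *
      (2 * circleAverage (fun z => (F z).re ^ 2) 0 s - s ^ 2 * ‖deriv F 0‖ ^ 2) := by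
  set a := deriv F 0 with ha
  set G : ℂ → ℂ := fun z => F z - a * z with hG
  have hGd : DifferentiableOn ℂ G (ball 0 1) := hF.sub (differentiableOn_id.const_mul a)
  have hsw : 0 < s - ‖w‖ := by linarith
  -- first step: Cauchy formula for `G²`
  have h1 : circleAverage (fun z => (z / (z - w)) • (G z ^ 2)) 0 s = G w ^ 2 := by
    have hd : DiffContOnCl ℂ (fun z => G z ^ 2) (ball 0 |s|) := by
      rw [abs_of_pos hs0]
      apply DifferentiableOn.diffContOnCl
      rw [closure_ball _ hs0.ne']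
      exact (hGd.pow 2).mono (closedBall_subset_ball hs)
    have h := hd.circleAverage_smul_div (w := w) (by
      rw [abs_of_pos hs0, mem_ball_zero_iff]
      exact hw)
    simpa using h
  have h2 : ‖G w‖ ^ 2 ≤ circleAverage (fun z => (s / (s - ‖w‖)) * ‖G z‖ ^ 2) 0 s := by
    rw [← norm_pow, ← h1]
    refine (norm_circleAverage_le _ _).trans ?_
    refine circleAverage_mono ?_ ?_ ?_
    · refine ContinuousOn.circleIntegrable hs0.le ?_
      simp only [smul_eq_mul]
      refine ContinuousOn.norm (ContinuousOn.mul ?_ ?_)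
      · refine continuousOn_id.div (continuousOn_id.sub continuousOn_const) ?_
        intro z hz h
        rw [mem_sphere_zero_iff_norm] at hz
        have : z = w := sub_eq_zero.mp h
        rw [this] at hz
        linarith
      · exact (hGd.continuousOn.mono (sphere_subset_ball hs)).pow 2
    · refine ContinuousOn.circleIntegrable hs0.le ?_
      exact continuousOn_const.mul ((hGd.continuousOn.mono (sphere_subset_ball hs)).norm.pow 2)
    · intro z hz
      rw [abs_of_pos hs0, mem_sphere_zero_iff_norm] at hz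
      rw [norm_smul, norm_div, norm_pow, hz]
      refine mul_le_mul_of_nonneg_right ?_ (by positivity)
      refine div_le_div_of_nonneg_left hs0.le hsw ?_
      have := norm_sub_norm_le z w
      rw [hz] at this
      exact this
  have h3 : circleAverage (fun z => (s / (s - ‖w‖)) * ‖G z‖ ^ 2) 0 s =
      (s / (s - ‖w‖)) * circleAverage (fun z => ‖G z‖ ^ 2) 0 s := by
    have := circleAverage_fun_smul (c := (0 : ℂ)) (R := s) (a := (s / (s - ‖w‖)))
      (f := fun z => ‖G z‖ ^ 2)
    simpa using this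
  -- second step: the average of `|G|²`
  set K : ℂ → ℂ := fun z => F z ^ 2 + 2 * s ^ 2 * conj a * dslope F 0 z with hK
  have hKd : DifferentiableOn ℂ K (ball 0 1) := by
    have hds : DifferentiableOn ℂ (dslope F 0) (ball 0 1) :=
      (Complex.differentiableOn_dslope (ball_mem_nhds 0 one_pos)).mpr hF
    exact (hF.pow 2).add (hds.const_mul _)
  have hKavg : circleAverage (fun z => (K z).re) 0 s = 2 * s ^ 2 * ‖a‖ ^ 2 := by
    have h := Complex.reCLM.circleAverage_comp_comm (circInt hs0 hs hKd.continuousOn)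
    rw [avg_holo hs0 hs hKd] at h
    have e : (Complex.reCLM ∘ K) = fun z => (K z).re := rfl
    rw [e] at h
    have hK0 : K 0 = ((2 * s ^ 2 * ‖a‖ ^ 2 : ℝ) : ℂ) := by
      rw [hK]
      simp only [dslope_same, h0, ← ha]
      rw [mul_assoc, mul_comm (conj a), Complex.mul_conj, Complex.normSq_eq_norm_sq]
      push_cast
      ring
    rw [h, hK0, Complex.reCLM_apply, Complex.ofReal_re]
  have hpoint : ∀ z ∈ sphere (0 : ℂ) |s|, ‖G z‖ ^ 2 =
      2 * (F z).re ^ 2 - (K z).re + s ^ 2 * ‖a‖ ^ 2 := by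
    intro z hz
    rw [abs_of_pos hs0, mem_sphere_zero_iff_norm] at hz
    have hz0 : z ≠ 0 := by
      intro h
      rw [h, norm_zero] at hz
      linarith
    have hds : dslope F 0 z = F z / z := by
      rw [dslope_of_ne _ hz0, slope_def_field, h0, sub_zero, sub_zero]
    have hzc : conj z * z = ((s ^ 2 : ℝ) : ℂ) := by
      rw [mul_comm, Complex.mul_conj, Complex.normSq_eq_norm_sq, hz]
    have hs2 : (s ^ 2 : ℂ) * (F z / z) = conj z * F z := by
      have : (s ^ 2 : ℂ) = conj z * z := by rw [hzc]; push_cast; ring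
      rw [this]
      field_simp
    have hKz : K z = F z ^ 2 + 2 * (conj a * conj z * F z) := by
      rw [hK]
      simp only
      rw [hds]
      linear_combination (2 * conj a) * hs2
    have hn : ‖a‖ ^ 2 * s ^ 2 = Complex.normSq (a * z) := by
      rw [Complex.normSq_mul, Complex.normSq_eq_norm_sq, Complex.normSq_eq_norm_sq, hz]
    rw [hKz, mul_comm (s ^ 2), hn, hG, ← Complex.normSq_eq_norm_sq, ← map_mul]
    simp only [Complex.normSq_apply, Complex.add_re, Complex.sub_re, Complex.sub_im, pow_two,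
      Complex.mul_re, Complex.mul_im, Complex.conj_re, Complex.conj_im, Complex.re_ofNat,
      Complex.im_ofNat]
    ring
  have hFc : ContinuousOn (fun z => (F z).re ^ 2) (ball (0 : ℂ) 1) :=
    (Complex.continuous_re.comp_continuousOn hF.continuousOn).pow 2
  have hKc : ContinuousOn (fun z => (K z).re) (ball (0 : ℂ) 1) :=
    Complex.continuous_re.comp_continuousOn hKd.continuousOn
  have h4 : circleAverage (fun z => ‖G z‖ ^ 2) 0 s =
      2 * circleAverage (fun z => (F z).re ^ 2) 0 s - s ^ 2 * ‖a‖ ^ 2 := by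
    rw [circleAverage_congr_sphere (f₂ := fun z => 2 * (F z).re ^ 2 - (K z).re + s ^ 2 * ‖a‖ ^ 2)
      (fun z hz => hpoint z hz)]
    have hi1 : CircleIntegrable (fun z => 2 * (F z).re ^ 2) 0 s :=
      circInt hs0 hs (continuousOn_const.mul hFc)
    have hi2 : CircleIntegrable (fun z => (K z).re) 0 s := circInt hs0 hs hKc
    have hi3 : CircleIntegrable (fun z => 2 * (F z).re ^ 2 - (K z).re) 0 s := hi1.sub hi2
    rw [circleAverage_fun_add hi3 (circleIntegrable_const _ _ _),
      circleAverage_fun_sub hi1 hi2, hKavg, circleAverage_const]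
    have := circleAverage_fun_smul (c := (0 : ℂ)) (R := s) (a := (2 : ℝ))
      (f := fun z => (F z).re ^ 2)
    simp only [smul_eq_mul] at this
    rw [this]
    ring
  rw [h3, h4] at h2
  exact h2

/-- Vector-valued version. -/
theorem vector {n : ℕ} (f : ℂ → EuclideanSpace ℝ (Fin n)) (hf : HarmonicOnNhd f (ball 0 1))
    (h0 : f 0 = 0) (L : ℝ) (hL : ∀ z ∈ ball (0 : ℂ) 1, ‖f z‖ ≤ L) (s : ℝ)
    (hs0 : 0 < s) (hs : s < 1) (w : ℂ) (hw : ‖w‖ < s) :
    ‖f w - fderiv ℝ f 0 w‖ ^ 2 ≤ (s / (s - ‖w‖)) *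
      (2 * L ^ 2 - s ^ 2 * (‖fderiv ℝ f 0 1‖ ^ 2 + ‖fderiv ℝ f 0 Complex.I‖ ^ 2)) := by
  have hsw : 0 < s - ‖w‖ := by linarith
  have h0mem : (0 : ℂ) ∈ ball (0 : ℂ) 1 := mem_ball_self one_pos
  have hex : ∀ j : Fin n, ∃ F : ℂ → ℂ, DifferentiableOn ℂ F (ball 0 1) ∧ F 0 = 0 ∧
      ∀ z ∈ ball (0 : ℂ) 1, (F z).re = f z j := by
    intro j
    have hj : HarmonicOnNhd (fun z => f z j) (ball 0 1) :=
      hf.comp_CLM (EuclideanSpace.proj j : EuclideanSpace ℝ (Fin n) →L[ℝ] ℝ)
    obtain ⟨F, hF, hFe⟩ := hj.exists_analyticOnNhd_ball_re_eq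
    have hre0 : (F 0).re = 0 := by
      have := hFe h0mem
      simp only at this
      rw [this, h0]
      rfl
    refine ⟨fun z => F z - F 0, hF.differentiableOn.sub (differentiableOn_const _), sub_self _, ?_⟩
    intro z hz
    rw [Complex.sub_re, hre0, sub_zero]
    exact hFe hz
  choose F hFd hF0 hFre using hex
  have hfd : DifferentiableAt ℝ f 0 := (hf 0 h0mem).1.differentiableAt two_ne_zero
  have hder : ∀ (j : Fin n) (v : ℂ), (fderiv ℝ f 0 v) j = (deriv (F j) 0 * v).re := by
    intro j v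
    have h1 : HasFDerivAt (fun z => f z j)
        ((EuclideanSpace.proj j : EuclideanSpace ℝ (Fin n) →L[ℝ] ℝ).comp (fderiv ℝ f 0)) 0 :=
      ((EuclideanSpace.proj j : EuclideanSpace ℝ (Fin n) →L[ℝ] ℝ).hasFDerivAt).comp 0
        hfd.hasFDerivAt
    have h2 : HasDerivAt (F j) (deriv (F j) 0) 0 :=
      ((hFd j 0 h0mem).differentiableAt (isOpen_ball.mem_nhds h0mem)).hasDerivAt
    have h3 : HasFDerivAt (fun z => (F j z).re)
        (Complex.reCLM.comp ((ContinuousLinearMap.toSpanSingleton ℂ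
          (deriv (F j) 0)).restrictScalars ℝ)) 0 :=
      (Complex.reCLM.hasFDerivAt).comp 0 (h2.hasFDerivAt.restrictScalars ℝ)
    have h4 : (fun z => (F j z).re) =ᶠ[nhds 0] fun z => f z j := by
      filter_upwards [isOpen_ball.mem_nhds h0mem] with z hz
      exact hFre j z hz
    have h5 := (h3.congr_of_eventuallyEq h4.symm).unique h1
    have h6 := congrArg (fun T : ℂ →L[ℝ] ℝ => T v) h5
    simp only [ContinuousLinearMap.comp_apply, ContinuousLinearMap.coe_restrictScalars',
      ContinuousLinearMap.toSpanSingleton_apply, Complex.reCLM_apply, smul_eq_mul] at h6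
    rw [mul_comm, h6]
    rfl
  -- the sum over coordinates
  have hsum : ‖f w - fderiv ℝ f 0 w‖ ^ 2 ≤ ∑ j, ‖F j w - deriv (F j) 0 * w‖ ^ 2 := by
    rw [EuclideanSpace.norm_sq_eq]
    refine Finset.sum_le_sum fun j _ => ?_
    have hwm : w ∈ ball (0 : ℂ) 1 := by
      rw [mem_ball_zero_iff]
      linarith
    have e : (f w - fderiv ℝ f 0 w) j = (F j w - deriv (F j) 0 * w).re := by
      rw [Complex.sub_re, hFre j w hwm, ← hder]
      rfl
    rw [e, Real.norm_eq_abs]
    exact pow_le_pow_left₀ (abs_nonneg _) (Complex.abs_re_le_norm _) 2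
  have hsum2 : ∑ j, ‖F j w - deriv (F j) 0 * w‖ ^ 2 ≤ ∑ j, (s / (s - ‖w‖)) *
      (2 * circleAverage (fun z => (F j z).re ^ 2) 0 s - s ^ 2 * ‖deriv (F j) 0‖ ^ 2) :=
    Finset.sum_le_sum fun j _ => scalar (F j) (hFd j) (hF0 j) s hs0 hs w hw
  have hci : ∀ j, CircleIntegrable (fun z => (F j z).re ^ 2) 0 s := fun j =>
    circInt hs0 hs ((Complex.continuous_re.comp_continuousOn (hFd j).continuousOn).pow 2)
  have hsum3 : ∑ j, circleAverage (fun z => (F j z).re ^ 2) 0 s ≤ L ^ 2 := by
    rw [← circleAverage_fun_sum (fun j _ => hci j)]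
    have h1 : circleAverage (fun z => ∑ j, (F j z).re ^ 2) 0 s ≤ circleAverage (fun _ => L ^ 2) 0 s := by
      refine circleAverage_mono ?_ (circleIntegrable_const _ _ _) ?_
      · have := CircleIntegrable.sum (s := Finset.univ) (fun j _ => hci j)
        convert this using 1
        ext z
        simp
      · intro z hz
        rw [abs_of_pos hs0] at hz
        have hzm : z ∈ ball (0 : ℂ) 1 := sphere_subset_ball hs hz
        have h2 : ∑ j, (F j z).re ^ 2 = ‖f z‖ ^ 2 := by
          rw [EuclideanSpace.norm_sq_eq]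
          refine Finset.sum_congr rfl fun j _ => ?_
          rw [hFre j z hzm, Real.norm_eq_abs, sq_abs]
        simp only [h2]
        exact pow_le_pow_left₀ (norm_nonneg _) (hL z hzm) 2
    rwa [circleAverage_const] at h1
  have hsum4 : ∑ j, ‖deriv (F j) 0‖ ^ 2 =
      ‖fderiv ℝ f 0 1‖ ^ 2 + ‖fderiv ℝ f 0 Complex.I‖ ^ 2 := by
    rw [EuclideanSpace.norm_sq_eq, EuclideanSpace.norm_sq_eq, ← Finset.sum_add_distrib]
    refine Finset.sum_congr rfl fun j _ => ?_
    rw [hder, hder, ← Complex.normSq_eq_norm_sq, Complex.normSq_apply, Real.norm_eq_abs,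
      Real.norm_eq_abs, sq_abs, sq_abs]
    simp
    ring
  calc ‖f w - fderiv ℝ f 0 w‖ ^ 2 ≤ _ := hsum
    _ ≤ _ := hsum2
    _ = (s / (s - ‖w‖)) * (2 * ∑ j, circleAverage (fun z => (F j z).re ^ 2) 0 s -
        s ^ 2 * ∑ j, ‖deriv (F j) 0‖ ^ 2) := by
      rw [← Finset.mul_sum, Finset.sum_sub_distrib, ← Finset.mul_sum, ← Finset.mul_sum]
    _ ≤ _ := by
      rw [hsum4]
      refine mul_le_mul_of_nonneg_left ?_ (by positivity)
      linarith

end Pool.Agent.X91.HarmEst
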