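import Pool.Agent.X91.HaarL2

/-!
The dyadic martingale inequality behind the Haar shift of an indicator function.
-/

set_option autoImplicit false

namespace Pool.Agent.X91.Mart

open Pool.Agent.X91.Haar (Lev Lev_mono Lev_add Lev_sub Lev_smul Lev_nonneg Lev_succ' Lev_additive
  two_zpow_pos)

/-- Half differences. -/
noncomputable def d (u : ℤ → ℤ → ℝ) (j k : ℤ) : ℝ := (u (j - 1) (2 * k + 1) - u (j - 1) (2 * k)) / 2

/-- The martingale property. -/
def IsM (u : ℤ → ℤ → ℝ) : Prop := ∀ j k, u j k = (u (j - 1) (2 * k) + u (j - 1) (2 * k + 1)) / 2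

theorem IsM.right {u : ℤ → ℤ → ℝ} (h : IsM u) (j k : ℤ) : u (j - 1) (2 * k + 1) = u j k + d u j k := by
  have := h j k
  unfold d
  linarith

theorem IsM.left {u : ℤ → ℤ → ℝ} (h : IsM u) (j k : ℤ) : u (j - 1) (2 * k) = u j k - d u j k := by
  have := h j k
  unfold d
  linarith

theorem pow_half (j : ℤ) : (2 : ℝ) ^ (j - 1) = 2 ^ j / 2 := by
  rw [zpow_sub_one₀ two_ne_zero]
  ring

/-- The data. -/
structure Data (x y κ : ℤ → ℤ → ℝ) : Prop where
  hx : IsM x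
  hy : IsM y
  hκ : IsM κ
  nonneg : ∀ j k, 0 ≤ x j k
  le_one : ∀ j k, x j k ≤ 1
  sib1 : ∀ j k, d y j (2 * k) = d x j (2 * k + 1)
  sib2 : ∀ j k, d y j (2 * k + 1) = - d x j (2 * k)
  ident : ∀ j k, y j k * (1 - x j k) = d x j k * d y j k + κ j k

variable {x y κ : ℤ → ℤ → ℝ}

theorem abs_d_le (h : Data x y κ) (j k : ℤ) : |d x j k| ≤ x j k := by
  have h1 := h.nonneg (j - 1) (2 * k)
  have h2 := h.nonneg (j - 1) (2 * k + 1)
  rw [h.hx.left] at h1
  rw [h.hx.right] at h2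
  rw [abs_le]
  constructor <;> linarith

/-- The key local identity. -/
theorem local_identity (h : Data x y κ) (j k : ℤ) :
    d y j k * ((1 - x j k) ^ 2 - d x j k ^ 2) =
      (1 - x j k) * (- (d x (j - 1) (2 * k + 1) * d x (j - 1) (2 * k)) + d κ j k) +
        κ j k * d x j k := by
  have h0 := h.ident j k
  have h1 := h.ident (j - 1) (2 * k + 1)
  have h2 := h.ident (j - 1) (2 * k)
  rw [h.sib2, h.hx.right, h.hy.right, h.hκ.right] at h1
  rw [h.sib1, h.hx.left, h.hy.left, h.hκ.left] at h2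
  linear_combination (1 - x j k) / 2 * (h1 - h2) + d x j k * h0

theorem local_bound (h : Data x y κ) (j k : ℤ) (hs : x j k ≤ 1 / 40) :
    d y j k ^ 2 ≤ 4 * (d x (j - 1) (2 * k + 1) ^ 2 * d x (j - 1) (2 * k) ^ 2 + d κ j k ^ 2 +
      κ j k ^ 2 * d x j k ^ 2) := by
  have h0 := local_identity h j k
  have h1 := abs_d_le h j k
  have h2 := h.nonneg j k
  set b := d y j k
  set a := d x j k
  set X := x j k
  set p := d x (j - 1) (2 * k + 1) * d x (j - 1) (2 * k) with hp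
  set q := d κ j k
  set r := κ j k * a with hr
  have ha : a ^ 2 ≤ X ^ 2 := by
    rw [← sq_abs]
    exact pow_le_pow_left₀ (abs_nonneg _) h1 2
  have hD : (19 / 20 : ℝ) ≤ (1 - X) ^ 2 - a ^ 2 := by nlinarith
  have hR : ((1 - X) * (-p + q) + r) ^ 2 ≤ 3 * (p ^ 2 + q ^ 2 + r ^ 2) := by
    have e1 : 0 ≤ 1 - X := by linarith
    have e2 : (1 - X) ^ 2 ≤ 1 := by nlinarith
    set u := (1 - X) * (-p)
    set v := (1 - X) * q
    have hu : u ^ 2 ≤ p ^ 2 := by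
      have : u ^ 2 = (1 - X) ^ 2 * p ^ 2 := by ring
      rw [this]
      nlinarith [sq_nonneg p]
    have hv : v ^ 2 ≤ q ^ 2 := by
      have : v ^ 2 = (1 - X) ^ 2 * q ^ 2 := by ring
      rw [this]
      nlinarith [sq_nonneg q]
    have e3 : (1 - X) * (-p + q) + r = u + v + r := by ring
    rw [e3]
    nlinarith [sq_nonneg (u - v), sq_nonneg (u - r), sq_nonneg (v - r)]
  have h3 : b ^ 2 * ((1 - X) ^ 2 - a ^ 2) ^ 2 ≤ 3 * (p ^ 2 + q ^ 2 + r ^ 2) := by
    rw [← mul_pow, h0]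
    exact hR
  have h4 : (19 / 20 : ℝ) ^ 2 ≤ ((1 - X) ^ 2 - a ^ 2) ^ 2 := pow_le_pow_left₀ (by norm_num) hD 2
  have h5 : b ^ 2 * (19 / 20 : ℝ) ^ 2 ≤ 3 * (p ^ 2 + q ^ 2 + r ^ 2) :=
    (mul_le_mul_of_nonneg_left h4 (sq_nonneg b)).trans h3
  have e4 : p ^ 2 = d x (j - 1) (2 * k + 1) ^ 2 * d x (j - 1) (2 * k) ^ 2 := by rw [hp]; ring
  have e5 : r ^ 2 = κ j k ^ 2 * a ^ 2 := by rw [hr]; ring
  rw [← e4, ← e5]
  nlinarith [sq_nonneg p, sq_nonneg q, sq_nonneg r]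

/-- Second difference operator for potentials. -/
def del (F : ℤ → ℤ → ℝ) (j k : ℤ) : ℝ := F (j - 1) (2 * k) + F (j - 1) (2 * k + 1) - F j k

/-- The potentials. -/
noncomputable def P1 (x : ℤ → ℤ → ℝ) (j k : ℤ) : ℝ := 2 ^ j * ((1 / 20) * x j k ^ 2 / (x j k + 1 / 20))

noncomputable def P2 (κ : ℤ → ℤ → ℝ) (j k : ℤ) : ℝ := 2 ^ j * κ j k ^ 2

noncomputable def P3 (x κ : ℤ → ℤ → ℝ) (j k : ℤ) : ℝ :=
  2 ^ j * (κ j k ^ 2 / (1 + x j k - x j k ^ 2))

theorem frac_aux (t : ℝ) (ht : t + 1 / 20 ≠ 0) :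
    (1 / 20) * t ^ 2 / (t + 1 / 20) = (1 / 20) * (t - 1 / 20 + (1 / 20) ^ 2 / (t + 1 / 20)) := by
  rw [div_eq_iff ht, mul_assoc, add_mul, div_mul_cancel₀ _ ht]
  ring

theorem frac_aux2 (u a : ℝ) (h1 : u - a ≠ 0) (h2 : u + a ≠ 0) (h3 : u ≠ 0) :
    1 / 2 * (1 / (u - a)) + 1 / 2 * (1 / (u + a)) - 1 / u = a ^ 2 / (u * (u ^ 2 - a ^ 2)) := by
  have e : u ^ 2 - a ^ 2 = (u - a) * (u + a) := by ring
  rw [e]
  field_simp
  ring

theorem del_P1 (h : Data x y κ) (j k : ℤ) :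
    del (P1 x) j k = 2 ^ j * ((1 / 20) ^ 3 * d x j k ^ 2 /
      ((x j k + 1 / 20) * ((x j k + 1 / 20) ^ 2 - d x j k ^ 2))) := by
  unfold del P1
  rw [h.hx.left, h.hx.right, pow_half]
  have h1 := abs_le.mp (abs_d_le h j k)
  have h2 := h.nonneg j k
  set X := x j k
  set a := d x j k
  have e1 : X - a + 1 / 20 ≠ 0 := by linarith [h1.2]
  have e2 : X + a + 1 / 20 ≠ 0 := by linarith [h1.1]
  have e3 : X + 1 / 20 ≠ 0 := by linarith
  rw [frac_aux _ e1, frac_aux _ e2, frac_aux _ e3, mul_div_assoc ((1 / 20 : ℝ) ^ 3)]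
  have e4 := frac_aux2 (X + 1 / 20) a (by linarith [h1.2]) (by linarith [h1.1]) e3
  rw [← e4, show X + 1 / 20 - a = X - a + 1 / 20 by ring, show X + 1 / 20 + a = X + a + 1 / 20 by ring]
  ring

theorem del_P1_nonneg (h : Data x y κ) (j k : ℤ) : 0 ≤ del (P1 x) j k := by
  rw [del_P1 h]
  have h1 := abs_le.mp (abs_d_le h j k)
  have h2 := h.nonneg j k
  have hp := two_zpow_pos j
  have e3 : 0 < x j k + 1 / 20 := by linarith
  have e5 : (x j k + 1 / 20) ^ 2 - d x j k ^ 2 =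
      (x j k - d x j k + 1 / 20) * (x j k + d x j k + 1 / 20) := by ring
  have e1 : 0 < x j k - d x j k + 1 / 20 := by linarith [h1.2]
  have e2 : 0 < x j k + d x j k + 1 / 20 := by linarith [h1.1]
  rw [e5]
  positivity

theorem del_P1_ge (h : Data x y κ) (j k : ℤ) (hs : x j k ≤ 1 / 20) :
    2 ^ j * d x j k ^ 2 ≤ 8 * del (P1 x) j k := by
  rw [del_P1 h]
  have h1 := abs_le.mp (abs_d_le h j k)
  have h2 := h.nonneg j k
  have hp := two_zpow_pos j
  set X := x j k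
  set a := d x j k
  have e3 : 0 < X + 1 / 20 := by linarith
  have e1 : 0 < X - a + 1 / 20 := by linarith [h1.2]
  have e2 : 0 < X + a + 1 / 20 := by linarith [h1.1]
  have e5 : (X + 1 / 20) ^ 2 - a ^ 2 = (X - a + 1 / 20) * (X + a + 1 / 20) := by ring
  have e6 : 0 < (X + 1 / 20) * ((X + 1 / 20) ^ 2 - a ^ 2) := by rw [e5]; positivity
  have e7 : (X + 1 / 20) * ((X + 1 / 20) ^ 2 - a ^ 2) ≤ (1 / 10) ^ 3 := by
    have : (X + 1 / 20) * ((X + 1 / 20) ^ 2 - a ^ 2) ≤ (X + 1 / 20) * (X + 1 / 20) ^ 2 :=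
      mul_le_mul_of_nonneg_left (by nlinarith [sq_nonneg a]) e3.le
    refine this.trans ?_
    have : (X + 1 / 20) * (X + 1 / 20) ^ 2 = (X + 1 / 20) ^ 3 := by ring
    rw [this]
    exact pow_le_pow_left₀ e3.le (by linarith) 3
  have e8 : a ^ 2 ≤ 8 * ((1 / 20) ^ 3 * a ^ 2 / ((X + 1 / 20) * ((X + 1 / 20) ^ 2 - a ^ 2))) := by
    rw [← mul_div_assoc, le_div_iff₀ e6]
    nlinarith [sq_nonneg a]
  calc 2 ^ j * a ^ 2 ≤ 2 ^ j * (8 * ((1 / 20) ^ 3 * a ^ 2 /
        ((X + 1 / 20) * ((X + 1 / 20) ^ 2 - a ^ 2)))) := mul_le_mul_of_nonneg_left e8 hp.le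
    _ = _ := by ring

theorem P1_le (h : Data x y κ) (j k : ℤ) : P1 x j k ≤ (1 / 20) * (2 ^ j * x j k) := by
  unfold P1
  have h2 := h.nonneg j k
  have hp := two_zpow_pos j
  have e : (1 / 20) * x j k ^ 2 / (x j k + 1 / 20) ≤ (1 / 20) * x j k := by
    rw [div_le_iff₀ (by linarith)]
    nlinarith
  calc (2 : ℝ) ^ j * ((1 / 20) * x j k ^ 2 / (x j k + 1 / 20)) ≤ 2 ^ j * ((1 / 20) * x j k) :=
        mul_le_mul_of_nonneg_left e hp.le
    _ = _ := by ring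

theorem P1_nonneg (h : Data x y κ) (j k : ℤ) : 0 ≤ P1 x j k := by
  unfold P1
  have h2 := h.nonneg j k
  have hp := two_zpow_pos j
  positivity

theorem del_P2 (h : Data x y κ) (j k : ℤ) : del (P2 κ) j k = 2 ^ j * d κ j k ^ 2 := by
  unfold del P2
  rw [h.hκ.left, h.hκ.right, pow_half]
  ring

theorem P2_nonneg (j k : ℤ) : 0 ≤ P2 κ j k := by
  unfold P2
  have hp := two_zpow_pos j
  positivity

theorem M_pos (h : Data x y κ) (j k : ℤ) : 1 ≤ 1 + x j k - x j k ^ 2 := by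
  have h1 := h.nonneg j k
  have h2 := h.le_one j k
  nlinarith

theorem M_le (x : ℤ → ℤ → ℝ) (j k : ℤ) : 1 + x j k - x j k ^ 2 ≤ 5 / 4 := by
  nlinarith [sq_nonneg (x j k - 1 / 2)]

theorem P3_nonneg (h : Data x y κ) (j k : ℤ) : 0 ≤ P3 x κ j k := by
  unfold P3
  have hp := two_zpow_pos j
  have := M_pos h j k
  have : 0 < 1 + x j k - x j k ^ 2 := by linarith
  positivity

theorem P3_le (h : Data x y κ) (j k : ℤ) : P3 x κ j k ≤ P2 κ j k := by
  unfold P3 P2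
  have hp := two_zpow_pos j
  refine mul_le_mul_of_nonneg_left ?_ hp.le
  have := M_pos h j k
  rw [div_le_iff₀ (by linarith)]
  nlinarith [sq_nonneg (κ j k)]

theorem div_sq_add_le (u v p q : ℝ) (hp : 0 < p) (hq : 0 < q) :
    (u + v) ^ 2 / (p + q) ≤ u ^ 2 / p + v ^ 2 / q := by
  rw [div_add_div _ _ hp.ne' hq.ne', div_le_div_iff₀ (by positivity) (by positivity)]
  nlinarith [sq_nonneg (u * q - v * p), mul_pos hp hq]

theorem del_P3_ge (h : Data x y κ) (j k : ℤ) :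
    2 ^ j * (κ j k ^ 2 * d x j k ^ 2) ≤ (25 / 16) * del (P3 x κ) j k := by
  unfold del P3
  have m1 := M_pos h (j - 1) (2 * k)
  have m2 := M_pos h (j - 1) (2 * k + 1)
  have m0 := M_pos h j k
  have m3 := M_le x j k
  have hp := two_zpow_pos j
  have key := div_sq_add_le (κ (j - 1) (2 * k)) (κ (j - 1) (2 * k + 1))
    (1 + x (j - 1) (2 * k) - x (j - 1) (2 * k) ^ 2)
    (1 + x (j - 1) (2 * k + 1) - x (j - 1) (2 * k + 1) ^ 2) (by linarith) (by linarith)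
  set S := κ (j - 1) (2 * k) ^ 2 / (1 + x (j - 1) (2 * k) - x (j - 1) (2 * k) ^ 2) +
    κ (j - 1) (2 * k + 1) ^ 2 / (1 + x (j - 1) (2 * k + 1) - x (j - 1) (2 * k + 1) ^ 2) with hS
  have hκ2 : κ (j - 1) (2 * k) + κ (j - 1) (2 * k + 1) = 2 * κ j k := by
    rw [h.hκ.left, h.hκ.right]; ring
  have hM2 : (1 + x (j - 1) (2 * k) - x (j - 1) (2 * k) ^ 2) +
      (1 + x (j - 1) (2 * k + 1) - x (j - 1) (2 * k + 1) ^ 2) =
      2 * ((1 + x j k - x j k ^ 2) - d x j k ^ 2) := by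
    rw [h.hx.left, h.hx.right]; ring
  rw [hκ2, hM2] at key
  set Mx := 1 + x j k - x j k ^ 2 with hMx
  set a := d x j k
  set K := κ j k
  have hMa : 0 < Mx - a ^ 2 := by
    have : 0 < 2 * (Mx - a ^ 2) := by rw [← hM2]; linarith
    linarith
  have e1 : (2 * K) ^ 2 / (2 * (Mx - a ^ 2)) = 2 * (K ^ 2 / (Mx - a ^ 2)) := by
    field_simp
  rw [e1] at key
  have e2 : K ^ 2 / Mx + (16 / 25) * (K ^ 2 * a ^ 2) ≤ K ^ 2 / (Mx - a ^ 2) := by
    have e3 : K ^ 2 / (Mx - a ^ 2) - K ^ 2 / Mx = K ^ 2 * a ^ 2 / (Mx * (Mx - a ^ 2)) := by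
      field_simp
      ring
    have e4 : (16 / 25) * (K ^ 2 * a ^ 2) ≤ K ^ 2 * a ^ 2 / (Mx * (Mx - a ^ 2)) := by
      rw [le_div_iff₀ (by positivity)]
      have e5 : Mx * (Mx - a ^ 2) ≤ (5 / 4) * (5 / 4) :=
        mul_le_mul m3 (by nlinarith [sq_nonneg a]) hMa.le (by norm_num)
      have e6 : 0 ≤ K ^ 2 * a ^ 2 := by positivity
      nlinarith
    linarith
  rw [pow_half]
  have e7 : (2 : ℝ) ^ j / 2 * (κ (j - 1) (2 * k) ^ 2 / (1 + x (j - 1) (2 * k) - x (j - 1) (2 * k) ^ 2)) +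
      2 ^ j / 2 * (κ (j - 1) (2 * k + 1) ^ 2 /
        (1 + x (j - 1) (2 * k + 1) - x (j - 1) (2 * k + 1) ^ 2)) - 2 ^ j * (K ^ 2 / Mx) =
      2 ^ j * (S / 2 - K ^ 2 / Mx) := by rw [hS]; ring
  rw [e7]
  have e8 : (16 / 25) * (K ^ 2 * a ^ 2) ≤ S / 2 - K ^ 2 / Mx := by linarith
  nlinarith

theorem del_P3_nonneg (h : Data x y κ) (j k : ℤ) : 0 ≤ del (P3 x κ) j k := by
  have h1 := del_P3_ge h j k
  have hp := two_zpow_pos j
  have : 0 ≤ (2 : ℝ) ^ j * (κ j k ^ 2 * d x j k ^ 2) := by positivity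
  linarith

theorem del_P2_nonneg (h : Data x y κ) (j k : ℤ) : 0 ≤ del (P2 κ) j k := by
  rw [del_P2 h]
  have hp := two_zpow_pos j
  positivity

/-- The local majorant. -/
noncomputable def E (x κ : ℤ → ℤ → ℝ) (j k : ℤ) : ℝ :=
  4 * ((1 / 50) * (del (P1 x) (j - 1) (2 * k) + del (P1 x) (j - 1) (2 * k + 1)) + del (P2 κ) j k +
    (25 / 16) * del (P3 x κ) j k)

theorem E_nonneg (h : Data x y κ) (j k : ℤ) : 0 ≤ E x κ j k := by
  unfold E
  have h1 := del_P1_nonneg h (j - 1) (2 * k)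
  have h2 := del_P1_nonneg h (j - 1) (2 * k + 1)
  have h3 := del_P2_nonneg h j k
  have h4 := del_P3_nonneg h j k
  positivity

theorem x_left_le (h : Data x y κ) (j k : ℤ) : x (j - 1) (2 * k) ≤ 2 * x j k := by
  have h1 := h.nonneg (j - 1) (2 * k + 1)
  have h2 := h.hx j k
  linarith

theorem x_right_le (h : Data x y κ) (j k : ℤ) : x (j - 1) (2 * k + 1) ≤ 2 * x j k := by
  have h1 := h.nonneg (j - 1) (2 * k)
  have h2 := h.hx j k
  linarith

/-- For a cube with small density the increment of `y` is controlled by `E`. -/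
theorem b_le_E (h : Data x y κ) (j k : ℤ) (hs : x j k ≤ 1 / 40) :
    2 ^ j * d y j k ^ 2 ≤ E x κ j k := by
  have hp := two_zpow_pos j
  have h1 := local_bound h j k hs
  have hl := x_left_le h j k
  have hr := x_right_le h j k
  have g1 := del_P1_ge h (j - 1) (2 * k) (by linarith)
  have g2 := del_P1_ge h (j - 1) (2 * k + 1) (by linarith)
  have g3 := del_P2 h j k
  have g4 := del_P3_ge h j k
  rw [pow_half] at g1 g2
  have a1 := abs_d_le h (j - 1) (2 * k)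
  have a2 := abs_d_le h (j - 1) (2 * k + 1)
  set A := d x (j - 1) (2 * k + 1)
  set B := d x (j - 1) (2 * k)
  have hB : B ^ 2 ≤ 1 / 400 := by
    have : |B| ≤ 1 / 20 := by linarith
    rw [← sq_abs]
    calc |B| ^ 2 ≤ (1 / 20) ^ 2 := pow_le_pow_left₀ (abs_nonneg _) this 2
      _ = _ := by norm_num
  have hA : A ^ 2 ≤ 1 / 400 := by
    have : |A| ≤ 1 / 20 := by linarith
    rw [← sq_abs]
    calc |A| ^ 2 ≤ (1 / 20) ^ 2 := pow_le_pow_left₀ (abs_nonneg _) this 2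
      _ = _ := by norm_num
  have hAB : A ^ 2 * B ^ 2 ≤ (1 / 800) * (A ^ 2 + B ^ 2) := by
    nlinarith [sq_nonneg A, sq_nonneg B]
  have h2 : (2 : ℝ) ^ j * d y j k ^ 2 ≤ 2 ^ j * (4 * (A ^ 2 * B ^ 2 + d κ j k ^ 2 +
      κ j k ^ 2 * d x j k ^ 2)) := mul_le_mul_of_nonneg_left h1 hp.le
  have h3 : (2 : ℝ) ^ j * (A ^ 2 * B ^ 2) ≤ (1 / 400) * (2 ^ j / 2 * A ^ 2 + 2 ^ j / 2 * B ^ 2) := by
    have := mul_le_mul_of_nonneg_left hAB hp.le
    linarith
  unfold E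
  nlinarith

/-- The stopped energy. -/
noncomputable def Gs (x : ℤ → ℤ → ℝ) : ℕ → ℤ → ℤ → ℝ
  | 0, _, _ => 0
  | n + 1, j, k => if x j k ≤ 1 / 80 then
      2 ^ j * ((d x (j - 1) (2 * k) ^ 2 + d x (j - 1) (2 * k + 1) ^ 2) / 2) +
        Gs x n (j - 1) (2 * k) + Gs x n (j - 1) (2 * k + 1) else 0

theorem Gs_nonneg (n : ℕ) (j k : ℤ) : 0 ≤ Gs x n j k := by
  induction n generalizing j k with
  | zero => exact le_refl _
  | succ n ih =>
    unfold Gs
    have hp := two_zpow_pos j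
    have h1 := ih (j - 1) (2 * k)
    have h2 := ih (j - 1) (2 * k + 1)
    split_ifs
    · positivity
    · exact le_refl _

/-- Lower bound for the stopped energy. -/
theorem Gs_lower (h : Data x y κ) (n : ℕ) (j k : ℤ) :
    (1 / 80) * (2 ^ j * x j k) - Lev (fun j k => 2 ^ j * (x j k - x j k ^ 2)) n j k ≤
      Gs x n j k + 2 ^ j * ((x (j - 1) (2 * k) ^ 2 + x (j - 1) (2 * k + 1) ^ 2) / 2) := by
  have hsq : ∀ j k, 2 ^ j * ((x (j - 1) (2 * k) ^ 2 + x (j - 1) (2 * k + 1) ^ 2) / 2) =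
      2 ^ j * (x j k ^ 2 + d x j k ^ 2) := by
    intro j k
    rw [h.hx.left, h.hx.right]
    ring
  have hLn : ∀ n j k, 0 ≤ Lev (fun j k => 2 ^ j * (x j k - x j k ^ 2)) n j k := by
    intro n j k
    refine Lev_nonneg n j k fun j k => ?_
    have h1 := h.nonneg j k
    have h2 := h.le_one j k
    have hp := two_zpow_pos j
    exact mul_nonneg hp.le (by nlinarith)
  induction n generalizing j k with
  | zero =>
    rw [hsq]
    unfold Gs Lev
    have h1 := h.nonneg j k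
    have h2 := h.le_one j k
    have hp := two_zpow_pos j
    have e : (1 / 80) * (2 ^ j * x j k) - 2 ^ j * (x j k - x j k ^ 2) =
        2 ^ j * (x j k ^ 2 - (79 / 80) * x j k) := by ring
    rw [e, zero_add]
    exact mul_le_mul_of_nonneg_left (by nlinarith [sq_nonneg (d x j k)]) hp.le
  | succ n ih =>
    unfold Gs
    have hp := two_zpow_pos j
    split_ifs with hx
    · have h1 := ih (j - 1) (2 * k)
      have h2 := ih (j - 1) (2 * k + 1)
      rw [hsq, pow_half] at h1 h2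
      have e1 : Lev (fun j k => 2 ^ j * (x j k - x j k ^ 2)) (n + 1) j k =
        Lev (fun j k => 2 ^ j * (x j k - x j k ^ 2)) n (j - 1) (2 * k) +
        Lev (fun j k => 2 ^ j * (x j k - x j k ^ 2)) n (j - 1) (2 * k + 1) := rfl
      rw [e1]
      have e2 : x j k = (x (j - 1) (2 * k) + x (j - 1) (2 * k + 1)) / 2 := h.hx j k
      rw [e2]
      linarith
    · rw [hsq, zero_add]
      have h1 := hLn (n + 1) j k
      have h2 : (1 / 80) * (2 ^ j * x j k) ≤ 2 ^ j * (x j k ^ 2 + d x j k ^ 2) := by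
        have : (1 / 80) * (2 ^ j * x j k) = 2 ^ j * ((1 / 80) * x j k) := by ring
        rw [this]
        refine mul_le_mul_of_nonneg_left ?_ hp.le
        push Not at hx
        nlinarith [sq_nonneg (d x j k)]
      linarith

/-- Shift to the children. -/
def sh (F : ℤ → ℤ → ℝ) (j k : ℤ) : ℝ := F (j - 1) (2 * k) + F (j - 1) (2 * k + 1)

/-- The global potential. -/
noncomputable def R (x κ : ℤ → ℤ → ℝ) (j k : ℤ) : ℝ :=
  4 * ((1 / 50) * sh (sh (P1 x)) j k + sh (P2 κ) j k + (25 / 16) * sh (P3 x κ) j k)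

theorem sh_E (j k : ℤ) : sh (E x κ) j k = sh (R x κ) j k - R x κ j k := by
  unfold sh E R del sh
  ring

theorem R_nonneg (h : Data x y κ) (j k : ℤ) : 0 ≤ R x κ j k := by
  unfold R sh
  have h1 := P1_nonneg h
  have h2 : ∀ j k, 0 ≤ P2 κ j k := P2_nonneg
  have h3 := P3_nonneg h
  have := h1 (j - 1 - 1) (2 * (2 * k))
  have := h1 (j - 1 - 1) (2 * (2 * k) + 1)
  have := h1 (j - 1 - 1) (2 * (2 * k + 1))
  have := h1 (j - 1 - 1) (2 * (2 * k + 1) + 1)
  have := h2 (j - 1) (2 * k)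
  have := h2 (j - 1) (2 * k + 1)
  have := h3 (j - 1) (2 * k)
  have := h3 (j - 1) (2 * k + 1)
  positivity

/-- Upper bound for the stopped energy. -/
theorem Gs_upper (h : Data x y κ) (n : ℕ) (j k : ℤ) :
    Gs x n j k ≤ Lev (R x κ) n j k - R x κ j k := by
  induction n generalizing j k with
  | zero =>
    unfold Gs Lev
    linarith
  | succ n ih =>
    have hE0 : ∀ j k, 0 ≤ E x κ j k := E_nonneg h
    have h1 := ih (j - 1) (2 * k)
    have h2 := ih (j - 1) (2 * k + 1)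
    have h3 := Gs_nonneg (x := x) n (j - 1) (2 * k)
    have h4 := Gs_nonneg (x := x) n (j - 1) (2 * k + 1)
    have e1 : Lev (R x κ) (n + 1) j k =
      Lev (R x κ) n (j - 1) (2 * k) + Lev (R x κ) n (j - 1) (2 * k + 1) := rfl
    have e2 := sh_E (x := x) (κ := κ) j k
    unfold sh at e2
    have e3 := hE0 (j - 1) (2 * k)
    have e4 := hE0 (j - 1) (2 * k + 1)
    rw [e1]
    unfold Gs
    split_ifs with hx
    · have hl := x_left_le h j k
      have hr := x_right_le h j k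
      have g1 := b_le_E h (j - 1) (2 * k) (by linarith)
      have g2 := b_le_E h (j - 1) (2 * k + 1) (by linarith)
      rw [pow_half] at g1 g2
      have s1 := h.sib1 (j - 1) k
      have s2 := h.sib2 (j - 1) k
      rw [s1] at g1
      rw [s2, neg_sq] at g2
      linarith
    · linarith

theorem Lev_sh (F : ℤ → ℤ → ℝ) (n : ℕ) (j k : ℤ) : Lev (sh F) n j k = Lev F (n + 1) j k := by
  rw [Lev_succ']
  rfl

/-- Upper bound for the level sums of the global potential. -/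
theorem Lev_R_le (h : Data x y κ) (n : ℕ) (j k : ℤ) (K : ℝ)
    (hK : ∀ n, Lev (P2 κ) n j k ≤ K) :
    Lev (R x κ) n j k ≤ (32 / 100) * ((1 / 80) * (2 ^ j * x j k)) + (41 / 4) * K := by
  have e : Lev (R x κ) n j k = 4 * ((1 / 50) * Lev (P1 x) (n + 2) j k + Lev (P2 κ) (n + 1) j k +
      (25 / 16) * Lev (P3 x κ) (n + 1) j k) := by
    have e0 : R x κ = fun j k => 4 * (((1 / 50) * sh (sh (P1 x)) j k + sh (P2 κ) j k) +
      (25 / 16) * sh (P3 x κ) j k) := rfl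
    rw [e0, Lev_smul, Lev_add, Lev_add, Lev_smul, Lev_smul, Lev_sh, Lev_sh, Lev_sh, Lev_sh]
  have hx : ∀ n, Lev (fun j k => 2 ^ j * x j k) n j k = 2 ^ j * x j k := by
    intro n
    refine Lev_additive _ (fun j k => ?_) n j k
    rw [pow_half, h.hx j k]
    ring
  have h1 : Lev (P1 x) (n + 2) j k ≤ (1 / 20) * (2 ^ j * x j k) := by
    rw [← hx (n + 2), ← Lev_smul]
    exact Lev_mono _ _ _ fun l => P1_le h _ _
  have h2 := hK (n + 1)
  have h3 : Lev (P3 x κ) (n + 1) j k ≤ K :=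
    (Lev_mono _ _ _ fun l => P3_le h _ _).trans h2
  rw [e]
  linarith

/-- The martingale inequality. -/
theorem main (h : Data x y κ) (j k : ℤ) (K : ℝ) (hK : ∀ n, Lev (P2 κ) n j k ≤ K)
    (hlim : Filter.Tendsto (fun n => Lev (fun j k => 2 ^ j * (x j k - x j k ^ 2)) n j k)
      Filter.atTop (nhds 0)) :
    (68 / 100) * ((1 / 80) * (2 ^ j * x j k)) ≤ (41 / 4) * K + 2 * (2 ^ j * x j k ^ 2) := by
  have h1 : ∀ n, (68 / 100) * ((1 / 80) * (2 ^ j * x j k)) -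
      ((41 / 4) * K + 2 * (2 ^ j * x j k ^ 2)) ≤
      Lev (fun j k => 2 ^ j * (x j k - x j k ^ 2)) n j k := by
    intro n
    have a1 := Gs_lower h n j k
    have a2 := Gs_upper h n j k
    have a3 := Lev_R_le h n j k K hK
    have a4 := R_nonneg h j k
    have a5 : 2 ^ j * ((x (j - 1) (2 * k) ^ 2 + x (j - 1) (2 * k + 1) ^ 2) / 2) ≤
        2 * (2 ^ j * x j k ^ 2) := by
      rw [h.hx.left, h.hx.right]
      have hp := two_zpow_pos j
      have h1 := abs_d_le h j k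
      have h2 : d x j k ^ 2 ≤ x j k ^ 2 := by
        rw [← sq_abs]
        exact pow_le_pow_left₀ (abs_nonneg _) h1 2
      have : 2 * ((2 : ℝ) ^ j * x j k ^ 2) = 2 ^ j * (x j k ^ 2 + x j k ^ 2) := by ring
      rw [this]
      refine mul_le_mul_of_nonneg_left ?_ hp.le
      nlinarith
    linarith
  have := ge_of_tendsto hlim (Filter.Eventually.of_forall h1)
  linarith

end Pool.Agent.X91.Mart
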