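import Mathlib

/-!
Laurent polynomials with the `ℓ¹` norm, uniform distributions, symmetric unimodal elements.
-/

set_option autoImplicit false

open LaurentPolynomial Finset

namespace Pool.Agent.X91.Ritt

/-- Finitely supported real functions on `ℤ` with convolution. -/
abbrev P := LaurentPolynomial ℝ

/-- The `ℓ¹` norm. -/
noncomputable def N (p : P) : ℝ := ∑' k, |p.coeff k|

theorem summable_abs (p : P) : Summable fun k => |p.coeff k| := by
  refine summable_of_hasFiniteSupport ?_
  refine p.coeff.hasFiniteSupport.subset ?_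
  intro k hk
  simpa using hk

theorem N_nonneg (p : P) : 0 ≤ N p := tsum_nonneg fun _ => abs_nonneg _

theorem N_add (p q : P) : N (p + q) ≤ N p + N q := by
  unfold N
  rw [← (summable_abs p).tsum_add (summable_abs q)]
  refine (summable_abs (p + q)).tsum_le_tsum (fun k => ?_) ((summable_abs p).add (summable_abs q))
  rw [AddMonoidAlgebra.coeff_add, Finsupp.add_apply]
  exact abs_add_le _ _

theorem N_smul (c : ℝ) (p : P) : N (c • p) = |c| * N p := by
  unfold N
  rw [← tsum_mul_left]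
  congr 1
  funext k
  rw [AddMonoidAlgebra.coeff_smul_apply, smul_eq_mul, abs_mul]

theorem N_neg (p : P) : N (-p) = N p := by
  have : -p = (-1 : ℝ) • p := by simp
  rw [this, N_smul]
  simp

theorem N_sub (p q : P) : N (p - q) ≤ N p + N q := by
  rw [sub_eq_add_neg]
  exact (N_add _ _).trans (by rw [N_neg])

theorem N_zero : N 0 = 0 := by
  unfold N
  simp

theorem N_sum {ι : Type*} (s : Finset ι) (f : ι → P) : N (∑ i ∈ s, f i) ≤ ∑ i ∈ s, N (f i) := by
  classical
  induction s using Finset.induction_on with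
  | empty => simp [N_zero]
  | insert a s ha ih =>
    rw [Finset.sum_insert ha, Finset.sum_insert ha]
    exact (N_add _ _).trans (by linarith)

theorem coeff_T_mul (n : ℤ) (p : P) (k : ℤ) : (T n * p).coeff k = p.coeff (k - n) := by
  have := AddMonoidAlgebra.coeff_single_mul_eq_mul_coeff (x := p) (r := (1 : ℝ)) (m := n)
    (m₁ := k) (k - n) (by intro m' _; constructor <;> intro h <;> omega)
  rw [one_mul] at this
  exact this

theorem N_T_mul (n : ℤ) (p : P) : N (T n * p) = N p := by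
  unfold N
  simp_rw [coeff_T_mul]
  exact (Equiv.subRight n).tsum_eq (fun k => |p.coeff k|)

theorem decomp (p : P) : p = ∑ k ∈ p.coeff.support, p.coeff k • (T k : P) := by
  refine LaurentPolynomial.ext fun m => ?_
  rw [AddMonoidAlgebra.coeff_sum, Finsupp.finsetSum_apply]
  simp_rw [AddMonoidAlgebra.coeff_smul_apply, T_apply, smul_eq_mul, mul_ite, mul_one, mul_zero]
  rw [Finset.sum_ite_eq']
  split_ifs with h
  · rfl
  · simpa using h

theorem N_eq_sum (p : P) : N p = ∑ k ∈ p.coeff.support, |p.coeff k| := by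
  unfold N
  refine tsum_eq_sum fun k hk => ?_
  simpa using hk

theorem N_mul (p q : P) : N (p * q) ≤ N p * N q := by
  conv_lhs => rw [decomp p, Finset.sum_mul]
  refine (N_sum _ _).trans ?_
  rw [N_eq_sum p, Finset.sum_mul]
  refine Finset.sum_le_sum fun k _ => ?_
  rw [smul_mul_assoc, N_smul, N_T_mul]

theorem coeff_mul' (p q : P) (k : ℤ) : (p * q).coeff k = ∑' j, p.coeff j * q.coeff (k - j) := by
  conv_lhs => rw [decomp p, Finset.sum_mul]
  rw [AddMonoidAlgebra.coeff_sum, Finsupp.finsetSum_apply]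
  rw [tsum_eq_sum (s := p.coeff.support)]
  · refine Finset.sum_congr rfl fun j _ => ?_
    rw [smul_mul_assoc, AddMonoidAlgebra.coeff_smul_apply, coeff_T_mul, smul_eq_mul]
  · intro j hj
    have : p.coeff j = 0 := by simpa using hj
    rw [this, zero_mul]

theorem N_one : N 1 = 1 := by
  rw [← T_zero]
  unfold N
  rw [tsum_eq_single 0]
  · simp
  · intro k hk
    rw [T_apply, if_neg (Ne.symm hk), abs_zero]

theorem N_T (n : ℤ) : N (T n : P) = 1 := by
  have := N_T_mul n 1
  rwa [mul_one, N_one] at this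

theorem N_pow_le (p : P) (h : N p ≤ 1) (n : ℕ) : N (p ^ n) ≤ 1 := by
  induction n with
  | zero => rw [pow_zero, N_one]
  | succ n ih =>
    rw [pow_succ]
    have h1 := N_mul (p ^ n) p
    have h2 := N_nonneg (p ^ n)
    have h3 := N_nonneg p
    nlinarith

theorem abs_coeff_le (p : P) (k : ℤ) : |p.coeff k| ≤ N p :=
  (summable_abs p).le_tsum k fun _ _ => abs_nonneg _

/-- Unnormalised uniform distribution on `{-R,...,R}`. -/
noncomputable def W : ℕ → P
  | 0 => 1
  | R + 1 => W R + T ((R : ℤ) + 1) + T (-((R : ℤ) + 1))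

/-- Uniform distribution on `{-R,...,R}`. -/
noncomputable def U (R : ℕ) : P := (2 * (R : ℝ) + 1)⁻¹ • W R

theorem W_mul_succ (R : ℕ) (p : P) : W (R + 1) * p = W R * p + T ((R : ℤ) + 1) * p +
    T (-((R : ℤ) + 1)) * p := by
  rw [W]
  ring

theorem coeff_W (R : ℕ) (k : ℤ) : (W R).coeff k = if k.natAbs ≤ R then 1 else 0 := by
  induction R with
  | zero =>
    rw [W, ← T_zero, T_apply]
    split_ifs <;> first | rfl | omega
  | succ R ih =>
    rw [W, AddMonoidAlgebra.coeff_add, AddMonoidAlgebra.coeff_add, Finsupp.add_apply,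
      Finsupp.add_apply, ih, T_apply, T_apply]
    split_ifs <;> first | omega | norm_num

theorem N_W (R : ℕ) : N (W R) ≤ 2 * R + 1 := by
  induction R with
  | zero => rw [W, N_one]; norm_num
  | succ R ih =>
    rw [W]
    refine (N_add _ _).trans ?_
    have := N_add (W R) (T ((R : ℤ) + 1))
    rw [N_T] at this
    rw [N_T]
    push_cast
    linarith

theorem N_U (R : ℕ) : N (U R) ≤ 1 := by
  have hp : (0 : ℝ) < 2 * R + 1 := by positivity
  unfold U
  rw [N_smul, abs_of_pos (inv_pos.mpr hp)]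
  calc (2 * (R : ℝ) + 1)⁻¹ * N (W R) ≤ (2 * (R : ℝ) + 1)⁻¹ * (2 * R + 1) :=
        mul_le_mul_of_nonneg_left (N_W R) (inv_pos.mpr hp).le
    _ = 1 := inv_mul_cancel₀ hp.ne'

theorem U_zero : U 0 = 1 := by
  unfold U
  simp [W]

/-- Symmetric unimodal nonnegative elements. -/
structure Uni (p : P) : Prop where
  nonneg : ∀ k, 0 ≤ p.coeff k
  symm : ∀ k, p.coeff (-k) = p.coeff k
  anti : ∀ k, 0 ≤ k → p.coeff (k + 1) ≤ p.coeff k

theorem coeff_one (k : ℤ) : (1 : P).coeff k = if k = 0 then 1 else 0 := by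
  rw [← T_zero, T_apply]
  split_ifs <;> first | rfl | omega

theorem uni_one : Uni 1 := by
  refine ⟨fun k => ?_, fun k => ?_, fun k hk => ?_⟩
  · rw [coeff_one]; split_ifs <;> norm_num
  · rw [coeff_one, coeff_one]; split_ifs <;> first | omega | norm_num
  · rw [coeff_one, coeff_one]; split_ifs <;> first | omega | norm_num

theorem Uni.anti' {p : P} (h : Uni p) {a b : ℤ} (hab : a.natAbs ≤ b.natAbs) :
    p.coeff b ≤ p.coeff a := by
  have key : ∀ (a : ℕ) (n : ℕ), p.coeff ((a : ℤ) + n) ≤ p.coeff a := by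
    intro a n
    induction n with
    | zero => simp
    | succ n ih =>
      have := h.anti ((a : ℤ) + n) (by positivity)
      push_cast
      rw [← add_assoc]
      exact this.trans ih
  have habs : ∀ a : ℤ, p.coeff a = p.coeff (a.natAbs : ℤ) := by
    intro a
    rcases Int.natAbs_eq a with h1 | h1
    · rw [← h1]
    · conv_lhs => rw [h1, h.symm]
  rw [habs a, habs b]
  have := key a.natAbs (b.natAbs - a.natAbs)
  rwa [show ((a.natAbs : ℤ) + (b.natAbs - a.natAbs : ℕ)) = b.natAbs by omega] at this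

theorem coeff_W_mul_nonneg {p : P} (h : Uni p) (R : ℕ) (k : ℤ) : 0 ≤ (W R * p).coeff k := by
  induction R with
  | zero => rw [W, one_mul]; exact h.nonneg k
  | succ R ih =>
    rw [W_mul_succ, AddMonoidAlgebra.coeff_add, AddMonoidAlgebra.coeff_add, Finsupp.add_apply,
      Finsupp.add_apply, coeff_T_mul, coeff_T_mul]
    have := h.nonneg (k - ((R : ℤ) + 1))
    have := h.nonneg (k - -((R : ℤ) + 1))
    positivity

theorem coeff_W_mul_symm {p : P} (h : Uni p) (R : ℕ) (k : ℤ) :
    (W R * p).coeff (-k) = (W R * p).coeff k := by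
  induction R with
  | zero => rw [W, one_mul]; exact h.symm k
  | succ R ih =>
    rw [W_mul_succ, AddMonoidAlgebra.coeff_add, AddMonoidAlgebra.coeff_add, Finsupp.add_apply,
      Finsupp.add_apply, coeff_T_mul, coeff_T_mul, Finsupp.add_apply,
      Finsupp.add_apply, coeff_T_mul, coeff_T_mul, ih]
    have h1 := h.symm (k - ((R : ℤ) + 1))
    have h2 := h.symm (k - -((R : ℤ) + 1))
    rw [show -(k - ((R : ℤ) + 1)) = -k - -((R : ℤ) + 1) by ring] at h1
    rw [show -(k - -((R : ℤ) + 1)) = -k - ((R : ℤ) + 1) by ring] at h2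
    rw [h1, h2]
    ring

theorem coeff_W_mul_sub (p : P) (R : ℕ) (k : ℤ) :
    (W R * p).coeff k - (W R * p).coeff (k + 1) = p.coeff (k - R) - p.coeff (k + 1 + R) := by
  induction R with
  | zero => rw [W, one_mul]; simp
  | succ R ih =>
    rw [W_mul_succ, AddMonoidAlgebra.coeff_add, AddMonoidAlgebra.coeff_add, Finsupp.add_apply,
      Finsupp.add_apply, coeff_T_mul, coeff_T_mul, Finsupp.add_apply,
      Finsupp.add_apply, coeff_T_mul, coeff_T_mul]
    push_cast
    have e1 : k - ((R : ℤ) + 1) = k - (R + 1) := rfl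
    have e2 : k + 1 - ((R : ℤ) + 1) = k - R := by ring
    have e3 : k - -((R : ℤ) + 1) = k + 1 + R := by ring
    have e4 : k + 1 - -((R : ℤ) + 1) = k + 1 + (R + 1) := by ring
    rw [e2, e3, e4]
    linarith

theorem uni_U_mul {p : P} (h : Uni p) (R : ℕ) : Uni (U R * p) := by
  have hp : (0 : ℝ) < (2 * (R : ℝ) + 1)⁻¹ := by positivity
  have e : ∀ k, (U R * p).coeff k = (2 * (R : ℝ) + 1)⁻¹ * (W R * p).coeff k := by
    intro k
    unfold U
    rw [smul_mul_assoc, AddMonoidAlgebra.coeff_smul_apply, smul_eq_mul]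
  refine ⟨fun k => ?_, fun k => ?_, fun k hk => ?_⟩
  · rw [e]
    exact mul_nonneg hp.le (coeff_W_mul_nonneg h R k)
  · rw [e, e, coeff_W_mul_symm h]
  · rw [e, e]
    refine mul_le_mul_of_nonneg_left ?_ hp.le
    have h1 := coeff_W_mul_sub p R k
    have h2 : p.coeff (k + 1 + R) ≤ p.coeff (k - R) := h.anti' (by omega)
    linarith

theorem uni_prod {ι : Type*} (s : Finset ι) (r : ι → ℕ) : Uni (∏ i ∈ s, U (r i)) := by
  classical
  induction s using Finset.induction_on with
  | empty => rw [Finset.prod_empty]; exact uni_one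
  | insert a s ha ih => rw [Finset.prod_insert ha]; exact uni_U_mul ih _

theorem N_prod {ι : Type*} (s : Finset ι) (r : ι → ℕ) : N (∏ i ∈ s, U (r i)) ≤ 1 := by
  classical
  induction s using Finset.induction_on with
  | empty => rw [Finset.prod_empty, N_one]
  | insert a s ha ih =>
    rw [Finset.prod_insert ha]
    have h1 := N_mul (U (r a)) (∏ i ∈ s, U (r i))
    have h2 := N_nonneg (∏ i ∈ s, U (r i))
    have h3 := N_nonneg (U (r a))
    have h4 := N_U (r a)
    nlinarith

/-- The variation of a symmetric unimodal element. -/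
theorem N_diff {p : P} (h : Uni p) : N ((1 - T 1) * p) ≤ 2 * p.coeff 0 := by
  have e : N ((1 - T 1) * p) = ∑' k, |p.coeff (k + 1) - p.coeff k| := by
    unfold N
    refine ((Equiv.addRight (1 : ℤ)).tsum_eq (fun k => |((1 - T 1) * p).coeff k|)).symm.trans ?_
    congr 1
    funext k
    rw [sub_mul, one_mul, sub_eq_add_neg, AddMonoidAlgebra.coeff_add, Finsupp.add_apply]
    have : (-(T 1 * p)).coeff (k + 1) = - (T 1 * p).coeff (k + 1) := rfl
    simp only [Equiv.coe_addRight]
    rw [this, coeff_T_mul, add_sub_cancel_right, ← sub_eq_add_neg]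
  rw [e]
  have hlim : Filter.Tendsto (fun n : ℕ => p.coeff (n : ℤ)) Filter.atTop (nhds 0) := by
    have h1 : Summable fun n : ℕ => p.coeff (n : ℤ) := by
      have h2 := summable_abs p
      exact (h2.of_abs).comp_injective Nat.cast_injective
    exact h1.tendsto_atTop_zero
  have htel : HasSum (fun n : ℕ => p.coeff (n : ℤ) - p.coeff ((n : ℤ) + 1)) (p.coeff 0) := by
    rw [hasSum_iff_tendsto_nat_of_nonneg]
    · have h1 : ∀ n : ℕ, ∑ i ∈ Finset.range n, (p.coeff (i : ℤ) - p.coeff ((i : ℤ) + 1)) =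
          p.coeff 0 - p.coeff (n : ℤ) := by
        intro n
        have := Finset.sum_range_sub' (fun i : ℕ => p.coeff (i : ℤ)) n
        simpa using this
      simp_rw [h1]
      have := (tendsto_const_nhds (x := p.coeff 0)).sub hlim
      rwa [sub_zero] at this
    · intro i
      have := h.anti i (by positivity)
      linarith
  have h1 : HasSum (fun n : ℕ => |p.coeff ((n : ℤ) + 1) - p.coeff n|) (p.coeff 0) := by
    have : (fun n : ℕ => |p.coeff ((n : ℤ) + 1) - p.coeff n|) =
        fun n : ℕ => p.coeff (n : ℤ) - p.coeff ((n : ℤ) + 1) := by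
      funext n
      rw [abs_sub_comm, abs_of_nonneg]
      have := h.anti n (by positivity)
      linarith
    rw [this]
    exact htel
  have h2 : HasSum (fun n : ℕ => |p.coeff (-((n : ℤ) + 1) + 1) - p.coeff (-((n : ℤ) + 1))|)
      (p.coeff 0) := by
    have : (fun n : ℕ => |p.coeff (-((n : ℤ) + 1) + 1) - p.coeff (-((n : ℤ) + 1))|) =
        fun n : ℕ => p.coeff (n : ℤ) - p.coeff ((n : ℤ) + 1) := by
      funext n
      rw [show -((n : ℤ) + 1) + 1 = -(n : ℤ) by ring, h.symm, h.symm, abs_of_nonneg]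
      have := h.anti n (by positivity)
      linarith
    rw [this]
    exact htel
  have h3 := HasSum.of_nat_of_neg_add_one (f := fun k : ℤ => |p.coeff (k + 1) - p.coeff k|) h1 h2
  rw [h3.tsum_eq]
  linarith

theorem N_diff' {p : P} (h : Uni p) : N ((1 - T (-1)) * p) ≤ 2 * p.coeff 0 := by
  have e : (1 - T (-1)) * p = -(T (-1) * ((1 - T 1) * p)) := by
    have : (T (-1) : P) * T 1 = 1 := by rw [← T_add]; simp
    linear_combination (-p) * this
  rw [e, N_neg, N_T_mul]
  exact N_diff h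

/-- The second difference element. -/
noncomputable def Dd : P := (1 - T 1) * (1 - T (-1))

theorem N_two_sub (j : ℕ) (h : P) : N ((2 - T (j : ℤ) - T (-(j : ℤ))) * h) ≤ j ^ 2 * N (Dd * h) := by
  have e1 : ∀ j : ℕ, (1 - T (j : ℤ) : P) = (1 - T 1) * ∑ a ∈ Finset.range j, T (a : ℤ) := by
    intro j
    induction j with
    | zero => simp
    | succ j ih =>
      rw [Finset.sum_range_succ, mul_add, ← ih]
      push_cast
      rw [T_add]
      ring
  have e2 : ∀ j : ℕ, (1 - T (-(j : ℤ)) : P) =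
      (1 - T (-1)) * ∑ a ∈ Finset.range j, T (-(a : ℤ)) := by
    intro j
    induction j with
    | zero => simp
    | succ j ih =>
      rw [Finset.sum_range_succ, mul_add, ← ih]
      push_cast
      rw [neg_add, T_add]
      ring
  have e3 : (2 - T (j : ℤ) - T (-(j : ℤ)) : P) = (1 - T (j : ℤ)) * (1 - T (-(j : ℤ))) := by
    have : (T (j : ℤ) : P) * T (-(j : ℤ)) = 1 := by rw [← T_add]; simp
    linear_combination -this
  have e4 : (2 - T (j : ℤ) - T (-(j : ℤ))) * h = (∑ a ∈ Finset.range j, T (a : ℤ)) *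
      ((∑ a ∈ Finset.range j, T (-(a : ℤ))) * (Dd * h)) := by
    rw [e3, e1, e2]
    unfold Dd
    ring
  have n1 : N (∑ a ∈ Finset.range j, (T (a : ℤ) : P)) ≤ j := by
    refine (N_sum _ _).trans ?_
    simp_rw [N_T]
    simp
  have n2 : N (∑ a ∈ Finset.range j, (T (-(a : ℤ)) : P)) ≤ j := by
    refine (N_sum _ _).trans ?_
    simp_rw [N_T]
    simp
  rw [e4]
  have h0 := N_nonneg (Dd * h)
  calc N _ ≤ N (∑ a ∈ Finset.range j, (T (a : ℤ) : P)) *
        N ((∑ a ∈ Finset.range j, (T (-(a : ℤ)) : P)) * (Dd * h)) := N_mul _ _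
    _ ≤ j * (j * N (Dd * h)) := by
        refine mul_le_mul n1 ?_ (N_nonneg _) (by positivity)
        exact (N_mul _ _).trans (mul_le_mul_of_nonneg_right n2 h0)
    _ = _ := by ring

theorem N_V (R : ℕ) (h : P) : N (((2 * (R : ℝ) + 1) • (1 : P) - W R) * h) ≤
    (R * (R + 1) * (2 * R + 1) / 6) * N (Dd * h) := by
  induction R with
  | zero =>
    rw [W]
    simp [N_zero]
  | succ R ih =>
    have e : ((2 * ((R + 1 : ℕ) : ℝ) + 1) • (1 : P) - W (R + 1)) * h =
        ((2 * (R : ℝ) + 1) • (1 : P) - W R) * h +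
          (2 - T (((R + 1 : ℕ) : ℕ) : ℤ) - T (-(((R + 1 : ℕ) : ℕ) : ℤ))) * h := by
      rw [W]
      have : (2 * ((R + 1 : ℕ) : ℝ) + 1) • (1 : P) = (2 * (R : ℝ) + 1) • (1 : P) + 2 := by
        have h2 : (2 : P) = (2 : ℝ) • (1 : P) := by
          rw [two_smul]
          norm_num
        rw [h2, ← add_smul]
        congr 1
        push_cast
        ring
      rw [this]
      push_cast
      ring
    rw [e]
    refine (N_add _ _).trans ?_
    have h1 := N_two_sub (R + 1) h
    push_cast at h1 ⊢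
    have h0 := N_nonneg (Dd * h)
    linarith

theorem N_one_sub_U (R : ℕ) (h : P) : N ((1 - U R) * h) ≤ (R : ℝ) ^ 2 / 3 * N (Dd * h) := by
  have hp : (0 : ℝ) < 2 * R + 1 := by positivity
  have e : (1 - U R) * h = (2 * (R : ℝ) + 1)⁻¹ • (((2 * (R : ℝ) + 1) • (1 : P) - W R) * h) := by
    unfold U
    rw [← smul_mul_assoc, smul_sub, smul_smul, inv_mul_cancel₀ hp.ne', one_smul]
  rw [e, N_smul, abs_of_pos (inv_pos.mpr hp)]
  have h1 := N_V R h
  have h0 := N_nonneg (Dd * h)
  have h2 : (R : ℝ) * (R + 1) / 6 ≤ (R : ℝ) ^ 2 / 3 := by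
    have : (R : ℝ) ≤ (R : ℝ) ^ 2 := by exact_mod_cast Nat.le_self_pow two_ne_zero R
    nlinarith
  calc (2 * (R : ℝ) + 1)⁻¹ * N (((2 * (R : ℝ) + 1) • (1 : P) - W R) * h) ≤
        (2 * (R : ℝ) + 1)⁻¹ * ((R * (R + 1) * (2 * R + 1) / 6) * N (Dd * h)) :=
        mul_le_mul_of_nonneg_left h1 (inv_pos.mpr hp).le
    _ = (R : ℝ) * (R + 1) / 6 * N (Dd * h) := by field_simp
    _ ≤ _ := mul_le_mul_of_nonneg_right h2 h0

/-- The central coefficient of a product is bounded by that of each factor. -/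
theorem coeff_zero_le {ι : Type*} [DecidableEq ι] (s : Finset ι) (r : ι → ℕ) (i : ι) (hi : i ∈ s) :
    (∏ i ∈ s, U (r i)).coeff 0 ≤ 1 / (2 * r i + 1) := by
  rw [← Finset.mul_prod_erase s _ hi]
  set q := ∏ j ∈ s.erase i, U (r j) with hq
  have hqN : N q ≤ 1 := N_prod _ _
  rw [mul_comm, coeff_mul']
  have hb : ∀ k, |(U (r i)).coeff k| ≤ 1 / (2 * r i + 1) := by
    intro k
    have hp : (0 : ℝ) < 2 * (r i) + 1 := by positivity
    unfold U
    rw [AddMonoidAlgebra.coeff_smul_apply, coeff_W, smul_eq_mul]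
    split_ifs
    · rw [mul_one, abs_of_pos (inv_pos.mpr hp), one_div]
    · rw [mul_zero, abs_zero]
      positivity
  have hp : (0 : ℝ) ≤ 1 / (2 * (r i : ℝ) + 1) := by positivity
  have hs : Summable fun j => |q.coeff j| * (1 / (2 * (r i : ℝ) + 1)) := (summable_abs q).mul_right _
  have h1 : ∀ j, q.coeff j * (U (r i)).coeff (0 - j) ≤ |q.coeff j| * (1 / (2 * (r i : ℝ) + 1)) := by
    intro j
    refine (le_abs_self _).trans ?_
    rw [abs_mul]
    exact mul_le_mul_of_nonneg_left (hb _) (abs_nonneg _)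
  have hs2 : Summable fun j => q.coeff j * (U (r i)).coeff (0 - j) := by
    refine Summable.of_norm_bounded hs fun j => ?_
    rw [Real.norm_eq_abs, abs_mul]
    exact mul_le_mul_of_nonneg_left (hb _) (abs_nonneg _)
  refine (hs2.tsum_le_tsum h1 hs).trans ?_
  rw [tsum_mul_right]
  calc N q * (1 / (2 * (r i : ℝ) + 1)) ≤ 1 * (1 / (2 * (r i : ℝ) + 1)) :=
        mul_le_mul_of_nonneg_right hqN hp
    _ = _ := one_mul _

end Pool.Agent.X91.Ritt
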