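import Pool.Agent.X91.Ritt1

/-!
Fourier bound for the central coefficient of a convolution of uniform distributions.
-/

set_option autoImplicit false

open LaurentPolynomial Finset

namespace Pool.Agent.X91.Ritt

open Real

/-- The character `n ↦ exp(i n θ)`. -/
noncomputable def chr (θ : ℝ) : Multiplicative ℤ →* ℂ where
  toFun n := Complex.exp (Complex.I * ((θ * (Multiplicative.toAdd n : ℤ) : ℝ) : ℂ))
  map_one' := by simp
  map_mul' a b := by
    rw [← Complex.exp_add]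
    congr 1
    rw [toAdd_mul]
    push_cast
    ring

/-- Evaluation of a Laurent polynomial at `exp(i θ)`. -/
noncomputable def Ev (θ : ℝ) : P →ₐ[ℝ] ℂ := AddMonoidAlgebra.lift ℝ ℂ ℤ (chr θ)

theorem Ev_T (θ : ℝ) (n : ℤ) : Ev θ (T n) = Complex.exp (Complex.I * ((θ * n : ℝ) : ℂ)) := by
  unfold Ev T
  rw [AddMonoidAlgebra.lift_single, one_smul]
  rfl

theorem Ev_eq (θ : ℝ) (p : P) : Ev θ p =
    ∑ k ∈ p.coeff.support, p.coeff k • Complex.exp (Complex.I * ((θ * k : ℝ) : ℂ)) := by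
  conv_lhs => rw [decomp p]
  rw [map_sum]
  refine Finset.sum_congr rfl fun k _ => ?_
  rw [map_smul, Ev_T]

theorem continuous_Ev (p : P) : Continuous fun θ => Ev θ p := by
  simp_rw [Ev_eq]
  fun_prop

theorem integral_exp (n : ℤ) : ∫ θ in (-π)..π, Complex.exp (Complex.I * ((θ * n : ℝ) : ℂ)) =
    if n = 0 then ((2 * π : ℝ) : ℂ) else 0 := by
  split_ifs with h
  · subst h
    simp
    ring
  · have hn : (Complex.I * (n : ℂ)) ≠ 0 := mul_ne_zero Complex.I_ne_zero (by exact_mod_cast h)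
    have e : ∀ θ : ℝ, Complex.exp (Complex.I * ((θ * n : ℝ) : ℂ)) =
        Complex.exp ((Complex.I * (n : ℂ)) * θ) := by
      intro θ
      congr 1
      push_cast
      ring
    simp_rw [e]
    rw [integral_exp_mul_complex hn]
    have e2 : Complex.exp ((Complex.I * (n : ℂ)) * ((π : ℝ) : ℂ)) =
        Complex.exp ((Complex.I * (n : ℂ)) * ((-π : ℝ) : ℂ)) := by
      have : (Complex.I * (n : ℂ)) * ((π : ℝ) : ℂ) =
          (Complex.I * (n : ℂ)) * ((-π : ℝ) : ℂ) + n * (2 * π * Complex.I) := by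
        push_cast
        ring
      rw [this, Complex.exp_add, Complex.exp_int_mul_two_pi_mul_I, mul_one]
    rw [e2, sub_self, zero_div]

theorem integral_Ev (p : P) : ∫ θ in (-π)..π, Ev θ p = ((2 * π * p.coeff 0 : ℝ) : ℂ) := by
  simp_rw [Ev_eq]
  rw [intervalIntegral.integral_finsetSum]
  · simp_rw [intervalIntegral.integral_smul, integral_exp]
    simp only [smul_ite, smul_zero]
    rw [Finset.sum_ite_eq']
    split_ifs with h
    · rw [Complex.real_smul]
      push_cast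
      ring
    · have : p.coeff 0 = 0 := by simpa using h
      rw [this]
      simp
  · intro k _
    exact (by fun_prop : Continuous fun θ : ℝ => p.coeff k •
      Complex.exp (Complex.I * ((θ * k : ℝ) : ℂ))).intervalIntegrable _ _

theorem coeff_zero_le_integral (p : P) (g : ℝ → ℝ) (hg : Continuous g)
    (h : ∀ θ ∈ Set.Icc (-π) π, ‖Ev θ p‖ ≤ g θ) :
    2 * π * p.coeff 0 ≤ ∫ θ in (-π)..π, g θ := by
  have hpi := pi_pos
  have h1 : ‖∫ θ in (-π)..π, Ev θ p‖ ≤ ∫ θ in (-π)..π, ‖Ev θ p‖ :=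
    intervalIntegral.norm_integral_le_integral_norm (by linarith)
  rw [integral_Ev, Complex.norm_real] at h1
  have h2 : ∫ θ in (-π)..π, ‖Ev θ p‖ ≤ ∫ θ in (-π)..π, g θ :=
    intervalIntegral.integral_mono_on (by linarith) ((continuous_Ev p).norm.intervalIntegrable _ _)
      (hg.intervalIntegrable _ _) h
  exact ((le_abs_self _).trans h1).trans h2

/-- The Dirichlet kernel. -/
noncomputable def wr (θ : ℝ) : ℕ → ℝ
  | 0 => 1
  | R + 1 => wr θ R + 2 * cos (((R : ℝ) + 1) * θ)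

theorem Ev_W (θ : ℝ) (R : ℕ) : Ev θ (W R) = ((wr θ R : ℝ) : ℂ) := by
  induction R with
  | zero => rw [W, map_one, wr, Complex.ofReal_one]
  | succ R ih =>
    rw [W, map_add, map_add, ih, Ev_T, Ev_T, wr, add_assoc]
    push_cast
    congr 1
    rw [Complex.two_cos]
    congr 2
    · ring
    · ring

theorem Ev_U (θ : ℝ) (R : ℕ) : Ev θ (U R) = (((2 * (R : ℝ) + 1)⁻¹ * wr θ R : ℝ) : ℂ) := by
  unfold U
  rw [map_smul, Ev_W, Complex.real_smul]
  push_cast
  rfl

theorem W_tel (R : ℕ) : (1 - T 1) * W R = T (-(R : ℤ)) - T ((R : ℤ) + 1) := by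
  induction R with
  | zero => rw [W]; simp
  | succ R ih =>
    rw [W, mul_add, mul_add, ih]
    have e1 : (T 1 : P) * T ((R : ℤ) + 1) = T ((R : ℤ) + 1 + 1) := by rw [← T_add]; congr 1; ring
    have e2 : (T 1 : P) * T (-((R : ℤ) + 1)) = T (-(R : ℤ)) := by rw [← T_add]; congr 1; ring
    push_cast
    rw [sub_mul, sub_mul, one_mul, one_mul, e1, e2]
    ring

theorem norm_Ev_T (θ : ℝ) (n : ℤ) : ‖Ev θ (T n)‖ = 1 := by
  rw [Ev_T, mul_comm, Complex.norm_exp_ofReal_mul_I]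

theorem wr_far (θ : ℝ) (hθ : |θ| ≤ π) (R : ℕ) : |θ| * |wr θ R| ≤ π := by
  have hpi := pi_pos
  have h1 : ‖Ev θ (1 - T 1)‖ * |wr θ R| ≤ 2 := by
    have : ‖Ev θ ((1 - T 1) * W R)‖ ≤ 2 := by
      rw [W_tel, map_sub]
      refine (norm_sub_le _ _).trans ?_
      rw [norm_Ev_T, norm_Ev_T]
      norm_num
    rw [map_mul, norm_mul, Ev_W, Complex.norm_real] at this
    exact this
  have h2 : ‖Ev θ (1 - T 1)‖ = 2 * |sin (θ / 2)| := by
    rw [map_sub, map_one, Ev_T, ← norm_neg, neg_sub]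
    have := Complex.norm_exp_I_mul_ofReal_sub_one θ
    push_cast at this ⊢
    rw [mul_one, this, norm_mul, Real.norm_eq_abs, Real.norm_eq_abs, abs_two]
  have h3 : 2 / π * (|θ| / 2) ≤ |sin (θ / 2)| := by
    have h4 := mul_le_sin (x := |θ| / 2) (by positivity) (by linarith)
    have h5 : sin (|θ| / 2) ≤ |sin (θ / 2)| := by
      rcases abs_cases θ with ⟨h, _⟩ | ⟨h, _⟩
      · rw [h]; exact le_abs_self _
      · rw [h, neg_div, sin_neg]; exact neg_le_abs _
    exact h4.trans h5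
  rw [h2] at h1
  have h6 : 2 / π * (|θ| / 2) = |θ| / π := by field_simp
  rw [h6] at h3
  have h7 : 2 * (|θ| / π) * |wr θ R| ≤ 2 := by
    refine le_trans ?_ h1
    exact mul_le_mul_of_nonneg_right (by linarith) (abs_nonneg _)
  have h8 : 2 * (|θ| / π) * |wr θ R| = 2 * (|θ| * |wr θ R|) / π := by ring
  rw [h8, div_le_iff₀ hpi] at h7
  linarith

theorem wr_upper (θ : ℝ) (R : ℕ) (h : R * |θ| ≤ π) :
    wr θ R ≤ (2 * R + 1) - (4 / π ^ 2) * θ ^ 2 * (R * (R + 1) * (2 * R + 1) / 6) := by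
  induction R with
  | zero => simp [wr]
  | succ R ih =>
    have hpi := pi_pos
    rw [wr]
    have h0 := abs_nonneg θ
    push_cast at h
    have h1 := ih (by nlinarith)
    have h2 := cos_le_one_sub_mul_cos_sq (x := ((R : ℝ) + 1) * θ) (by
      rw [abs_mul, abs_of_nonneg (by positivity)]
      exact h)
    push_cast
    have h3 : 2 / π ^ 2 * (((R : ℝ) + 1) * θ) ^ 2 = 2 / π ^ 2 * θ ^ 2 * ((R : ℝ) + 1) ^ 2 := by ring
    rw [h3] at h2
    set q := 2 / π ^ 2 * θ ^ 2 with hq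
    have h4 : 4 / π ^ 2 * θ ^ 2 = 2 * q := by rw [hq]; ring
    rw [h4] at h1 ⊢
    nlinarith

theorem wr_lower (θ : ℝ) (R : ℕ) :
    (2 * R + 1) - θ ^ 2 * (R * (R + 1) * (2 * R + 1) / 6) ≤ wr θ R := by
  induction R with
  | zero => simp [wr]
  | succ R ih =>
    rw [wr]
    have h2 := one_sub_sq_div_two_le_cos (x := ((R : ℝ) + 1) * θ)
    push_cast
    nlinarith

/-- The main bound for the Dirichlet kernel. -/
theorem norm_Ev_U (θ : ℝ) (hθ : |θ| ≤ π) (R : ℕ) :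
    ‖Ev θ (U R)‖ ^ 2 ≤ 1 / (1 + (R : ℝ) ^ 2 * (θ ^ 2 / 16)) := by
  have hpi := pi_pos
  have hpi2 : π ^ 2 < 10 := by
    have := pi_lt_d2
    nlinarith [pi_gt_three]
  rcases Nat.eq_zero_or_pos R with h0 | hR
  · subst h0
    rw [U_zero, map_one]
    simp
  have hR1 : (1 : ℝ) ≤ R := by exact_mod_cast hR
  have hp : (0 : ℝ) < 2 * R + 1 := by positivity
  rw [Ev_U, Complex.norm_real, Real.norm_eq_abs, sq_abs]
  set D := (2 * (R : ℝ) + 1)⁻¹ * wr θ R with hD
  have hden : 0 < 1 + (R : ℝ) ^ 2 * (θ ^ 2 / 16) := by positivity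
  rw [le_div_iff₀ hden]
  set y := (R : ℝ) * |θ| with hy
  have hy0 : 0 ≤ y := by positivity
  have hy2 : (R : ℝ) ^ 2 * θ ^ 2 = y ^ 2 := by rw [hy, mul_pow, sq_abs]
  have e1 : (R : ℝ) ^ 2 * (θ ^ 2 / 16) = y ^ 2 / 16 := by rw [← hy2]; ring
  rw [e1]
  by_cases h2 : y ≤ 2
  · have hu := wr_upper θ R (by rw [← hy]; linarith [pi_gt_three])
    have hl := wr_lower θ R
    have hDu : D ≤ 1 - y ^ 2 / 15 := by
      have h3 : D ≤ (2 * (R : ℝ) + 1)⁻¹ * ((2 * R + 1) -
          (4 / π ^ 2) * θ ^ 2 * (R * (R + 1) * (2 * R + 1) / 6)) :=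
        mul_le_mul_of_nonneg_left hu (inv_pos.mpr hp).le
      have h4 : (2 * (R : ℝ) + 1)⁻¹ * ((2 * R + 1) -
          (4 / π ^ 2) * θ ^ 2 * (R * (R + 1) * (2 * R + 1) / 6)) =
          1 - (4 / π ^ 2) * θ ^ 2 * (R * (R + 1) / 6) := by
        field_simp
      rw [h4] at h3
      have h5 : y ^ 2 / 15 ≤ (4 / π ^ 2) * θ ^ 2 * (R * (R + 1) / 6) := by
        have h6 : (4 / 10 : ℝ) ≤ 4 / π ^ 2 :=
          div_le_div_of_nonneg_left (by norm_num) (by positivity) hpi2.le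
        have h7 : y ^ 2 ≤ θ ^ 2 * (R * (R + 1)) := by
          rw [← hy2]
          nlinarith [sq_nonneg θ]
        have h8 : 0 ≤ θ ^ 2 * ((R : ℝ) * (R + 1)) := by positivity
        calc y ^ 2 / 15 ≤ (θ ^ 2 * (R * (R + 1))) / 15 := by linarith
          _ = (4 / 10) * ((θ ^ 2 * (R * (R + 1))) / 6) := by ring
          _ ≤ 4 / π ^ 2 * ((θ ^ 2 * (R * (R + 1))) / 6) :=
              mul_le_mul_of_nonneg_right h6 (by positivity)
          _ = _ := by ring
      linarith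
    have hDl : -(1 / 3) ≤ D := by
      have h3 : (2 * (R : ℝ) + 1)⁻¹ * ((2 * R + 1) - θ ^ 2 * (R * (R + 1) * (2 * R + 1) / 6)) ≤ D :=
        mul_le_mul_of_nonneg_left hl (inv_pos.mpr hp).le
      have h4 : (2 * (R : ℝ) + 1)⁻¹ * ((2 * R + 1) - θ ^ 2 * (R * (R + 1) * (2 * R + 1) / 6)) =
          1 - θ ^ 2 * (R * (R + 1) / 6) := by
        field_simp
      rw [h4] at h3
      have h5 : θ ^ 2 * ((R : ℝ) * (R + 1) / 6) ≤ y ^ 2 / 3 := by
        rw [← hy2]
        nlinarith [sq_nonneg θ, mul_nonneg (sq_nonneg θ) (show 0 ≤ (R : ℝ) * (R - 1) by nlinarith)]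
      nlinarith
    have hy4 : y ^ 2 ≤ 4 := by nlinarith
    rcases le_total 0 D with h | h
    · have h6 : D ^ 2 ≤ D := by nlinarith [sq_nonneg y]
      have h7 : D * (1 + y ^ 2 / 16) ≤ (1 - y ^ 2 / 15) * (1 + y ^ 2 / 16) :=
        mul_le_mul_of_nonneg_right hDu (by positivity)
      nlinarith [sq_nonneg y, sq_nonneg (y ^ 2)]
    · have h6 : D ^ 2 ≤ 1 / 9 := by nlinarith
      nlinarith [sq_nonneg y, sq_nonneg D]
  · push Not at h2
    have h3 := wr_far θ hθ R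
    have h4 : y * |D| ≤ π / 2 := by
      have h5 : |D| = (2 * (R : ℝ) + 1)⁻¹ * |wr θ R| := by
        rw [hD, abs_mul, abs_of_pos (inv_pos.mpr hp)]
      rw [h5, hy]
      have h6 : (R : ℝ) * |θ| * ((2 * (R : ℝ) + 1)⁻¹ * |wr θ R|) =
          (R * (2 * (R : ℝ) + 1)⁻¹) * (|θ| * |wr θ R|) := by ring
      rw [h6]
      have h7 : R * (2 * (R : ℝ) + 1)⁻¹ ≤ 1 / 2 := by
        rw [← div_eq_mul_inv, div_le_iff₀ hp]
        linarith
      calc (R * (2 * (R : ℝ) + 1)⁻¹) * (|θ| * |wr θ R|) ≤ 1 / 2 * π :=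
            mul_le_mul h7 h3 (by positivity) (by norm_num)
        _ = π / 2 := by ring
    have h8 : y ^ 2 * D ^ 2 ≤ π ^ 2 / 4 := by
      have : (y * |D|) ^ 2 ≤ (π / 2) ^ 2 := pow_le_pow_left₀ (by positivity) h4 2
      rw [mul_pow, sq_abs] at this
      linarith
    have h9 : D ^ 2 ≤ 10 / 16 := by nlinarith [sq_nonneg D]
    nlinarith

theorem one_add_sum_le {ι : Type*} (s : Finset ι) (a : ι → ℝ) (ha : ∀ i ∈ s, 0 ≤ a i) :
    1 + ∑ i ∈ s, a i ≤ ∏ i ∈ s, (1 + a i) := by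
  classical
  induction s using Finset.induction_on with
  | empty => simp
  | insert b s hb ih =>
    rw [Finset.sum_insert hb, Finset.prod_insert hb]
    have h1 := ih fun i hi => ha i (Finset.mem_insert_of_mem hi)
    have h2 := ha b (Finset.mem_insert_self _ _)
    have h3 : 0 ≤ ∑ i ∈ s, a i := Finset.sum_nonneg fun i hi => ha i (Finset.mem_insert_of_mem hi)
    nlinarith

/-- Splitting a finite family of nonnegative numbers into two balanced groups. -/
theorem split {ι : Type*} [DecidableEq ι] (s : Finset ι) (a : ι → ℝ) (m : ℝ) (hm : 0 ≤ m)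
    (ha : ∀ i ∈ s, 0 ≤ a i ∧ a i ≤ m) (t : ℝ) (ht : t ≤ ∑ i ∈ s, a i) (ht0 : 0 ≤ t) :
    ∃ A ⊆ s, t ≤ ∑ i ∈ A, a i ∧ ∑ i ∈ A, a i ≤ t + m := by
  induction s using Finset.induction_on generalizing t with
  | empty =>
    rw [Finset.sum_empty] at ht
    refine ⟨∅, Finset.empty_subset _, ?_, ?_⟩
    · rw [Finset.sum_empty]; exact ht
    · rw [Finset.sum_empty]; linarith
  | insert b s hb ih =>
    by_cases h : t ≤ ∑ i ∈ s, a i
    · obtain ⟨A, hA, h1, h2⟩ := ih (fun i hi => ha i (Finset.mem_insert_of_mem hi)) t h ht0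
      exact ⟨A, hA.trans (Finset.subset_insert _ _), h1, h2⟩
    · push Not at h
      refine ⟨insert b s, subset_rfl, ht, ?_⟩
      rw [Finset.sum_insert hb]
      have := (ha b (Finset.mem_insert_self _ _)).2
      linarith

theorem split' {ι : Type*} [DecidableEq ι] (s : Finset ι) (a : ι → ℝ) (m : ℝ) (hm : 0 ≤ m)
    (ha : ∀ i ∈ s, 0 ≤ a i ∧ a i ≤ m) :
    ∃ A ⊆ s, (∑ i ∈ s, a i - m) / 2 ≤ ∑ i ∈ A, a i ∧
      (∑ i ∈ s, a i - m) / 2 ≤ ∑ i ∈ s \ A, a i := by
  set S := ∑ i ∈ s, a i with hS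
  have hS0 : 0 ≤ S := Finset.sum_nonneg fun i hi => (ha i hi).1
  by_cases h : m ≤ S
  · obtain ⟨A, hA, h1, h2⟩ := split s a m hm ha ((S - m) / 2) (by linarith) (by linarith)
    refine ⟨A, hA, h1, ?_⟩
    have h3 := Finset.sum_sdiff (f := a) hA
    linarith
  · push Not at h
    refine ⟨∅, Finset.empty_subset _, ?_, ?_⟩
    · rw [Finset.sum_empty]; linarith
    · rw [Finset.sdiff_empty]; linarith

theorem integral_lorentz (b : ℝ) (hb : 0 < b) : ∫ θ in (-π)..π, 1 / (1 + (b * θ) ^ 2) ≤ π / b := by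
  have h := intervalIntegral.integral_comp_mul_left (a := -π) (b := π)
    (fun x => 1 / (1 + x ^ 2)) hb.ne'
  rw [h, integral_one_div_one_add_sq, smul_eq_mul, div_eq_inv_mul]
  refine mul_le_mul_of_nonneg_left ?_ (inv_pos.mpr hb).le
  have h1 := arctan_lt_pi_div_two (b * π)
  have h2 := neg_pi_div_two_lt_arctan (b * (-π))
  linarith

/-- The central coefficient of a product of uniform distributions. -/
theorem conc {ι : Type*} [DecidableEq ι] (s : Finset ι) (r : ι → ℕ)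
    (hS : 0 < ∑ i ∈ s, (r i : ℝ) ^ 2) :
    (∏ i ∈ s, U (r i)).coeff 0 ≤ 4 / sqrt (∑ i ∈ s, (r i : ℝ) ^ 2) := by
  set S := ∑ i ∈ s, (r i : ℝ) ^ 2 with hSdef
  have hsq : 0 < sqrt S := sqrt_pos.mpr hS
  by_cases hcase : ∃ i ∈ s, S / 4 ≤ (r i : ℝ) ^ 2
  · obtain ⟨i, hi, h⟩ := hcase
    refine (coeff_zero_le s r i hi).trans ?_
    have h1 : sqrt S / 2 ≤ r i := by
      have : sqrt (S / 4) ≤ r i := by
        rw [show (r i : ℝ) = sqrt ((r i : ℝ) ^ 2) from (sqrt_sq (by positivity)).symm]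
        exact sqrt_le_sqrt h
      rwa [sqrt_div hS.le, show (4 : ℝ) = 2 ^ 2 by norm_num, sqrt_sq (by norm_num)] at this
    rw [div_le_div_iff₀ (by positivity) hsq]
    linarith
  · push Not at hcase
    obtain ⟨A, hA, h1, h2⟩ := split' s (fun i => (r i : ℝ) ^ 2) (S / 4) (by positivity)
      fun i hi => ⟨by positivity, (hcase i hi).le⟩
    rw [← hSdef] at h1 h2
    set b := sqrt (3 * S / 128) with hb
    have hb0 : 0 < b := sqrt_pos.mpr (by positivity)
    have hb2 : b ^ 2 = 3 * S / 128 := sq_sqrt (by positivity)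
    have hbound : ∀ θ ∈ Set.Icc (-π) π, ‖Ev θ (∏ i ∈ s, U (r i))‖ ≤ 1 / (1 + (b * θ) ^ 2) := by
      intro θ hθ
      have hθ' : |θ| ≤ π := abs_le.mpr hθ
      rw [map_prod, norm_prod]
      have h3 : (∏ i ∈ s, ‖Ev θ (U (r i))‖) ^ 2 ≤ (1 / (1 + (b * θ) ^ 2)) ^ 2 := by
        rw [← Finset.prod_pow]
        have h4 : ∏ i ∈ s, ‖Ev θ (U (r i))‖ ^ 2 ≤ ∏ i ∈ s, 1 / (1 + (r i : ℝ) ^ 2 * (θ ^ 2 / 16)) :=
          Finset.prod_le_prod (fun i _ => sq_nonneg _) fun i _ => norm_Ev_U θ hθ' (r i)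
        refine h4.trans ?_
        simp only [one_div]
        rw [Finset.prod_inv_distrib, inv_pow]
        refine inv_anti₀ (by positivity) ?_
        rw [← Finset.prod_sdiff hA]
        have g1 := one_add_sum_le A (fun i => (r i : ℝ) ^ 2 * (θ ^ 2 / 16)) fun i _ => by positivity
        have g2 := one_add_sum_le (s \ A) (fun i => (r i : ℝ) ^ 2 * (θ ^ 2 / 16))
          fun i _ => by positivity
        rw [← Finset.sum_mul] at g1 g2
        have g3 : 1 + (b * θ) ^ 2 ≤ 1 + (∑ i ∈ A, (r i : ℝ) ^ 2) * (θ ^ 2 / 16) := by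
          rw [mul_pow, hb2]
          have : (S - S / 4) / 2 * (θ ^ 2 / 16) ≤ (∑ i ∈ A, (r i : ℝ) ^ 2) * (θ ^ 2 / 16) :=
            mul_le_mul_of_nonneg_right h1 (by positivity)
          linarith
        have g4 : 1 + (b * θ) ^ 2 ≤ 1 + (∑ i ∈ s \ A, (r i : ℝ) ^ 2) * (θ ^ 2 / 16) := by
          rw [mul_pow, hb2]
          have : (S - S / 4) / 2 * (θ ^ 2 / 16) ≤ (∑ i ∈ s \ A, (r i : ℝ) ^ 2) * (θ ^ 2 / 16) :=
            mul_le_mul_of_nonneg_right h2 (by positivity)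
          linarith
        rw [sq]
        exact mul_le_mul (g4.trans g2) (g3.trans g1) (by positivity) (by positivity)
      exact le_of_sq_le_sq h3 (by positivity)
    have hcont : Continuous fun θ : ℝ => 1 / (1 + (b * θ) ^ 2) := by
      refine continuous_const.div (by fun_prop) fun θ => ?_
      positivity
    have h3 := coeff_zero_le_integral _ _ hcont hbound
    have h4 := integral_lorentz b hb0
    have hpi := pi_pos
    have h5 : 2 * π * (∏ i ∈ s, U (r i)).coeff 0 ≤ 2 * π * (1 / (2 * b)) := by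
      refine (h3.trans h4).trans (le_of_eq ?_)
      field_simp
    have h6 := le_of_mul_le_mul_left h5 (by positivity)
    refine h6.trans ?_
    rw [div_le_div_iff₀ (by positivity) hsq]
    have h7 : sqrt S ≤ 8 * b := by
      rw [sqrt_le_left (by positivity), mul_pow, hb2]
      linarith
    linarith

end Pool.Agent.X91.Ritt
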