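import Pool.Agent.X91.Ritt2

/-!
The uniform bound for products of uniform distributions and for finite mixtures.
-/

set_option autoImplicit false

open LaurentPolynomial Finset

namespace Pool.Agent.X91.Ritt

section

variable {ι : Type*} [DecidableEq ι]

/-- One term. -/
noncomputable def term (s : Finset ι) (r : ι → ℕ) (i : ι) : P :=
  (1 - U (r i)) * ∏ l ∈ s.erase i, U (r l)

theorem N_term_le (s : Finset ι) (r : ι → ℕ) (i : ι) : N (term s r i) ≤ 2 := by
  unfold term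
  have h1 := N_mul (1 - U (r i)) (∏ l ∈ s.erase i, U (r l))
  have h2 := N_prod (s.erase i) r
  have h3 := N_sub 1 (U (r i))
  have h4 := N_U (r i)
  rw [N_one] at h3
  have h5 := N_nonneg (1 - U (r i))
  have h6 := N_nonneg (∏ l ∈ s.erase i, U (r l))
  nlinarith

theorem term_zero (s : Finset ι) (r : ι → ℕ) (i : ι) (h : r i = 0) : term s r i = 0 := by
  unfold term
  rw [h, U_zero, sub_self, zero_mul]

theorem N_term (s : Finset ι) (r : ι → ℕ) (i j₁ j₂ : ι) (hi : i ∈ s) (h₁ : j₁ ∈ s) (h₂ : j₂ ∈ s)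
    (hi1 : i ≠ j₁) (hi2 : i ≠ j₂) (h12 : j₂ ≠ j₁) (hmax : ∀ l ∈ s, r l ≤ r j₁)
    (hle : r i ≤ r j₂) :
    N (term s r i) ≤ (256 / 3) * ((r i : ℝ) ^ 2 / ∑ l ∈ s.erase j₁, (r l : ℝ) ^ 2) := by
  set S' := ∑ l ∈ s.erase j₁, (r l : ℝ) ^ 2 with hS'
  have hS0 : 0 ≤ S' := Finset.sum_nonneg fun _ _ => by positivity
  by_cases h0 : r i = 0
  · rw [term_zero s r i h0, N_zero]
    positivity
  have hri : (1 : ℝ) ≤ r i := by exact_mod_cast Nat.one_le_iff_ne_zero.mpr h0
  have ha0 : (0 : ℝ) < (r i : ℝ) ^ 2 := by positivity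
  have hle' : (r i : ℝ) ^ 2 ≤ (r j₂ : ℝ) ^ 2 := by
    exact pow_le_pow_left₀ (by positivity) (by exact_mod_cast hle) 2
  have hS2 : 2 * (r i : ℝ) ^ 2 ≤ S' := by
    have h3 : ∑ l ∈ ({i, j₂} : Finset ι), (r l : ℝ) ^ 2 ≤ S' := by
      refine Finset.sum_le_sum_of_subset_of_nonneg ?_ fun _ _ _ => by positivity
      intro l hl
      rw [Finset.mem_insert, Finset.mem_singleton] at hl
      rw [Finset.mem_erase]
      rcases hl with rfl | rfl
      · exact ⟨hi1, hi⟩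
      · exact ⟨h12, h₂⟩
    rw [Finset.sum_pair hi2] at h3
    linarith
  have hSpos : 0 < S' := by linarith
  have hsum1 : ∑ l ∈ s, (r l : ℝ) ^ 2 = (r j₁ : ℝ) ^ 2 + S' :=
    (Finset.add_sum_erase s (fun l => (r l : ℝ) ^ 2) h₁).symm
  have hsum2 : ∑ l ∈ s, (r l : ℝ) ^ 2 = (r i : ℝ) ^ 2 + ∑ l ∈ s.erase i, (r l : ℝ) ^ 2 :=
    (Finset.add_sum_erase s (fun l => (r l : ℝ) ^ 2) hi).symm
  obtain ⟨A, hA, hA1, hA2⟩ := split' (s.erase i) (fun l => (r l : ℝ) ^ 2) ((r j₁ : ℝ) ^ 2)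
    (by positivity) fun l hl => ⟨by positivity,
      pow_le_pow_left₀ (by positivity) (by exact_mod_cast hmax l (Finset.mem_of_mem_erase hl)) 2⟩
  have hA1' : S' / 4 ≤ ∑ l ∈ A, (r l : ℝ) ^ 2 := by linarith
  have hA2' : S' / 4 ≤ ∑ l ∈ (s.erase i) \ A, (r l : ℝ) ^ 2 := by linarith
  have hsq : 0 < Real.sqrt S' := Real.sqrt_pos.mpr hSpos
  have key : ∀ B : Finset ι, S' / 4 ≤ ∑ l ∈ B, (r l : ℝ) ^ 2 →
      2 * (∏ l ∈ B, U (r l)).coeff 0 ≤ 16 / Real.sqrt S' := by
    intro B hB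
    have hBpos : 0 < ∑ l ∈ B, (r l : ℝ) ^ 2 := by linarith
    have h1 := conc B r hBpos
    have h2 : Real.sqrt S' / 2 ≤ Real.sqrt (∑ l ∈ B, (r l : ℝ) ^ 2) := by
      have := Real.sqrt_le_sqrt hB
      rwa [Real.sqrt_div hSpos.le, show (4 : ℝ) = 2 ^ 2 by norm_num,
        Real.sqrt_sq (by norm_num)] at this
    have h3 : 4 / Real.sqrt (∑ l ∈ B, (r l : ℝ) ^ 2) ≤ 4 / (Real.sqrt S' / 2) :=
      div_le_div_of_nonneg_left (by norm_num) (by positivity) h2
    have h4 : 4 / (Real.sqrt S' / 2) = 8 / Real.sqrt S' := by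
      field_simp
      norm_num
    have h5 : 16 / Real.sqrt S' = 2 * (8 / Real.sqrt S') := by ring
    rw [h5]
    linarith
  unfold term
  refine (N_one_sub_U (r i) _).trans ?_
  have e1 : ∏ l ∈ s.erase i, U (r l) = (∏ l ∈ (s.erase i) \ A, U (r l)) * ∏ l ∈ A, U (r l) :=
    (Finset.prod_sdiff hA).symm
  have e2 : Dd * ∏ l ∈ s.erase i, U (r l) = ((1 - T 1) * ∏ l ∈ (s.erase i) \ A, U (r l)) *
      ((1 - T (-1)) * ∏ l ∈ A, U (r l)) := by
    rw [e1]
    unfold Dd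
    ring
  have h3 : N (Dd * ∏ l ∈ s.erase i, U (r l)) ≤ 256 / S' := by
    rw [e2]
    refine (N_mul _ _).trans ?_
    have g1 := (N_diff (uni_prod ((s.erase i) \ A) r)).trans (key _ hA2')
    have g2 := (N_diff' (uni_prod A r)).trans (key _ hA1')
    have g3 : 16 / Real.sqrt S' * (16 / Real.sqrt S') = 256 / S' := by
      rw [div_mul_div_comm, Real.mul_self_sqrt hS0]
      norm_num
    rw [← g3]
    exact mul_le_mul g1 g2 (N_nonneg _) (by positivity)
  calc (r i : ℝ) ^ 2 / 3 * N (Dd * ∏ l ∈ s.erase i, U (r l)) ≤ (r i : ℝ) ^ 2 / 3 * (256 / S') :=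
        mul_le_mul_of_nonneg_left h3 (by positivity)
    _ = _ := by ring

theorem sum_term (s : Finset ι) (r : ι → ℕ) : ∑ i ∈ s, N (term s r i) ≤ 90 := by
  rcases s.eq_empty_or_nonempty with rfl | hs
  · simp
  obtain ⟨j₁, h₁, hmax⟩ := Finset.exists_max_image s r hs
  rw [← Finset.add_sum_erase s (fun i => N (term s r i)) h₁]
  have t1 := N_term_le s r j₁
  rcases (s.erase j₁).eq_empty_or_nonempty with h | hs'
  · rw [h, Finset.sum_empty]
    linarith
  obtain ⟨j₂, h₂, hmax2⟩ := Finset.exists_max_image (s.erase j₁) r hs'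
  rw [← Finset.add_sum_erase (s.erase j₁) (fun i => N (term s r i)) h₂]
  have t2 := N_term_le s r j₂
  set S' := ∑ l ∈ s.erase j₁, (r l : ℝ) ^ 2 with hS'
  have h3 : ∑ i ∈ (s.erase j₁).erase j₂, N (term s r i) ≤
      ∑ i ∈ (s.erase j₁).erase j₂, (256 / 3) * ((r i : ℝ) ^ 2 / S') := by
    refine Finset.sum_le_sum fun i hi => ?_
    have hi' := Finset.mem_of_mem_erase hi
    exact N_term s r i j₁ j₂ (Finset.mem_of_mem_erase hi') h₁ (Finset.mem_of_mem_erase h₂)
      (Finset.ne_of_mem_erase hi') (Finset.ne_of_mem_erase hi) (Finset.ne_of_mem_erase h₂) hmax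
      (hmax2 i hi')
  rw [← Finset.mul_sum, ← Finset.sum_div] at h3
  have h4 : ∑ i ∈ (s.erase j₁).erase j₂, (r i : ℝ) ^ 2 ≤ S' :=
    Finset.sum_le_sum_of_subset_of_nonneg (Finset.erase_subset _ _) fun _ _ _ => by positivity
  have h5 : (∑ i ∈ (s.erase j₁).erase j₂, (r i : ℝ) ^ 2) / S' ≤ 1 :=
    div_le_one_of_le₀ h4 (Finset.sum_nonneg fun _ _ => by positivity)
  linarith

end

/-- Finite mixtures. -/
theorem mixture (K : ℕ) (w : ℕ → ℝ) (hw : ∀ R, 0 ≤ w R) (hsum : ∑ R ∈ range (K + 1), w R = 1)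
    (p : P) (hp : p = ∑ R ∈ range (K + 1), w R • U R) (m : ℕ) :
    ((m : ℝ) + 1) * N (p ^ m - p ^ (m + 1)) ≤ 90 := by
  have h1p : 1 - p = ∑ R ∈ range (K + 1), w R • (1 - U R) := by
    simp_rw [smul_sub]
    rw [Finset.sum_sub_distrib, ← Finset.sum_smul, hsum, one_smul, hp]
  have hterm : ∀ i : Fin (m + 1), p ^ m - p ^ (m + 1) =
      ∑ q ∈ Fintype.piFinset (fun _ : Fin (m + 1) => range (K + 1)),
        (∏ l, w (q l)) • term univ q i := by
    intro i
    have e1 : p ^ m - p ^ (m + 1) = ∏ l : Fin (m + 1), (if l = i then 1 - p else p) := by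
      rw [← Finset.mul_prod_erase univ _ (Finset.mem_univ i), if_pos rfl]
      rw [Finset.prod_congr rfl (g := fun _ => p) fun l hl => if_neg (Finset.ne_of_mem_erase hl)]
      rw [Finset.prod_const, Finset.card_erase_of_mem (Finset.mem_univ i), Finset.card_univ,
        Fintype.card_fin, Nat.add_sub_cancel]
      ring
    have e2 : ∀ l : Fin (m + 1), (if l = i then 1 - p else p) =
        ∑ R ∈ range (K + 1), w R • (if l = i then 1 - U R else U R) := by
      intro l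
      split_ifs
      · exact h1p
      · exact hp
    rw [e1]
    simp_rw [e2]
    rw [Finset.prod_univ_sum]
    refine Finset.sum_congr rfl fun q _ => ?_
    rw [Finset.prod_smul]
    congr 1
    unfold term
    rw [← Finset.mul_prod_erase univ _ (Finset.mem_univ i), if_pos rfl]
    congr 1
    exact Finset.prod_congr rfl fun l hl => if_neg (Finset.ne_of_mem_erase hl)
  have hw0 : ∀ q : Fin (m + 1) → ℕ, 0 ≤ ∏ l, w (q l) := fun q => Finset.prod_nonneg fun l _ => hw _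
  have hN : ∀ i : Fin (m + 1), N (p ^ m - p ^ (m + 1)) ≤
      ∑ q ∈ Fintype.piFinset (fun _ : Fin (m + 1) => range (K + 1)),
        (∏ l, w (q l)) * N (term univ q i) := by
    intro i
    rw [hterm i]
    refine (N_sum _ _).trans (le_of_eq ?_)
    refine Finset.sum_congr rfl fun q _ => ?_
    rw [N_smul, abs_of_nonneg (hw0 q)]
  have hsumN : ∑ _i : Fin (m + 1), N (p ^ m - p ^ (m + 1)) ≤
      ∑ i : Fin (m + 1), ∑ q ∈ Fintype.piFinset (fun _ : Fin (m + 1) => range (K + 1)),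
        (∏ l, w (q l)) * N (term univ q i) := Finset.sum_le_sum fun i _ => hN i
  rw [Finset.sum_const, Finset.card_univ, Fintype.card_fin, nsmul_eq_mul, Finset.sum_comm] at hsumN
  push_cast at hsumN
  refine hsumN.trans ?_
  have h2 : ∑ q ∈ Fintype.piFinset (fun _ : Fin (m + 1) => range (K + 1)),
      ∑ i : Fin (m + 1), (∏ l, w (q l)) * N (term univ q i) ≤
      ∑ q ∈ Fintype.piFinset (fun _ : Fin (m + 1) => range (K + 1)), (∏ l, w (q l)) * 90 := by
    refine Finset.sum_le_sum fun q _ => ?_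
    rw [← Finset.mul_sum]
    exact mul_le_mul_of_nonneg_left (sum_term univ q) (hw0 q)
  refine h2.trans (le_of_eq ?_)
  rw [← Finset.sum_mul]
  have h3 := Finset.prod_univ_sum (fun _ : Fin (m + 1) => range (K + 1)) (fun _ R => w R)
  rw [← h3, Finset.prod_congr rfl fun i _ => hsum]
  simp

end Pool.Agent.X91.Ritt
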