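import Mathlib

/-!
Cosine coefficients of `1 - |ξ|^α` and Romanov's function `ρ`.
-/

set_option autoImplicit false

open MeasureTheory Set Real

namespace Pool.Agent.X91.Rom

/-- The integral in Romanov's function. -/
noncomputable def J (α ω : ℝ) : ℝ := ∫ t in (0 : ℝ)..ω, cos t / t ^ (2 - α)

/-- Cosine coefficients on `[0,1]`. -/
noncomputable def c (α ω : ℝ) : ℝ := ∫ ξ in (0 : ℝ)..1, (1 - ξ ^ α) * cos (ω * ξ)

theorem div_eq (α t : ℝ) (ht : 0 ≤ t) : cos t / t ^ (2 - α) = t ^ (α - 2) * cos t := by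
  rw [show α - 2 = -(2 - α) by ring, rpow_neg ht]
  rw [div_eq_mul_inv, mul_comm]

theorem int_g {α : ℝ} (hα : 1 < α) {a b : ℝ} (ha : 0 ≤ a) (hb : 0 ≤ b) :
    IntervalIntegrable (fun t => cos t / t ^ (2 - α)) volume a b := by
  have h : IntervalIntegrable (fun t : ℝ => t ^ (α - 2) * cos t) volume a b :=
    (intervalIntegral.intervalIntegrable_rpow' (by linarith)).mul_continuousOn
      continuous_cos.continuousOn
  refine h.congr ?_
  intro t ht
  have : 0 ≤ t := by
    rw [uIoc, mem_Ioc] at ht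
    have := ht.1
    have h2 : 0 ≤ min a b := le_min ha hb
    linarith
  simp only
  rw [div_eq α t this]

theorem J_parts {α ω : ℝ} (hα : 1 < α) (hω : 0 < ω) (hc : cos ω = 0) :
    α * (α - 1) * J α ω = ω ^ α * sin ω - ∫ t in (0 : ℝ)..ω, t ^ α * cos t := by
  have h1 := intervalIntegral.integral_mul_deriv_eq_deriv_mul_of_hasDerivAt (a := 0) (b := ω)
    (u := fun t : ℝ => cos t) (u' := fun t => - sin t) (v := fun t : ℝ => t ^ (α - 1))
    (v' := fun t => (α - 1) * t ^ (α - 2)) continuous_cos.continuousOn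
    ((continuous_rpow_const (by linarith)).continuousOn) (fun t _ => hasDerivAt_cos t)
    (fun t ht => by
      rw [min_eq_left hω.le, max_eq_right hω.le] at ht
      have := hasDerivAt_rpow_const (x := t) (p := α - 1) (Or.inl ht.1.ne')
      rw [show α - 1 - 1 = α - 2 by ring] at this
      exact this)
    (continuous_sin.neg.intervalIntegrable _ _)
    ((intervalIntegral.intervalIntegrable_rpow' (by linarith)).const_mul _)
  have h2 := intervalIntegral.integral_mul_deriv_eq_deriv_mul_of_hasDerivAt (a := 0) (b := ω)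
    (u := fun t : ℝ => sin t) (u' := fun t => cos t) (v := fun t : ℝ => t ^ α)
    (v' := fun t => α * t ^ (α - 1)) continuous_sin.continuousOn
    ((continuous_rpow_const (by linarith)).continuousOn) (fun t _ => hasDerivAt_sin t)
    (fun t ht => by
      rw [min_eq_left hω.le, max_eq_right hω.le] at ht
      exact hasDerivAt_rpow_const (x := t) (p := α) (Or.inl ht.1.ne'))
    (continuous_cos.intervalIntegrable _ _)
    ((intervalIntegral.intervalIntegrable_rpow' (by linarith)).const_mul _)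
  simp only [hc, zero_mul, sin_zero, zero_sub, zero_rpow (show α - 1 ≠ 0 by linarith), mul_zero,
    sub_zero, neg_mul] at h1 h2
  rw [intervalIntegral.integral_neg, neg_neg] at h1
  have e1 : ∫ x in (0 : ℝ)..ω, cos x * ((α - 1) * x ^ (α - 2)) = (α - 1) * J α ω := by
    unfold J
    rw [← intervalIntegral.integral_const_mul]
    refine intervalIntegral.integral_congr fun t ht => ?_
    rw [uIcc_of_le hω.le] at ht
    rw [div_eq α t ht.1]
    ring
  have e2 : ∫ x in (0 : ℝ)..ω, sin x * (α * x ^ (α - 1)) =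
      α * ∫ x in (0 : ℝ)..ω, sin x * x ^ (α - 1) := by
    rw [← intervalIntegral.integral_const_mul]
    refine intervalIntegral.integral_congr fun t _ => ?_
    ring
  rw [e1] at h1
  rw [e2, ← h1] at h2
  have e3 : ∫ x in (0 : ℝ)..ω, cos x * x ^ α = ∫ t in (0 : ℝ)..ω, t ^ α * cos t := by
    refine intervalIntegral.integral_congr fun t _ => ?_
    ring
  rw [e3] at h2
  linarith

theorem c_parts {α ω : ℝ} (hα : 0 < α) (hω : 0 < ω) :
    c α ω * ω ^ (1 + α) = ω ^ α * sin ω - ∫ t in (0 : ℝ)..ω, t ^ α * cos t := by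
  have h1 : ∫ ξ in (0 : ℝ)..1, (1 - (ω * ξ) ^ α / ω ^ α) * cos (ω * ξ) =
      ω⁻¹ * ∫ t in (0 : ℝ)..ω, (1 - t ^ α / ω ^ α) * cos t := by
    have := intervalIntegral.integral_comp_mul_left (a := 0) (b := 1)
      (fun t => (1 - t ^ α / ω ^ α) * cos t) hω.ne'
    rw [mul_zero, mul_one, smul_eq_mul] at this
    exact this
  have hp : 0 < ω ^ α := rpow_pos_of_pos hω _
  have h2 : c α ω = ∫ ξ in (0 : ℝ)..1, (1 - (ω * ξ) ^ α / ω ^ α) * cos (ω * ξ) := by
    unfold c
    refine intervalIntegral.integral_congr fun t ht => ?_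
    rw [uIcc_of_le zero_le_one] at ht
    rw [mul_rpow hω.le ht.1, mul_div_cancel_left₀ _ hp.ne']
  have h3 : ∫ t in (0 : ℝ)..ω, (1 - t ^ α / ω ^ α) * cos t =
      sin ω - (ω ^ α)⁻¹ * ∫ t in (0 : ℝ)..ω, t ^ α * cos t := by
    rw [← intervalIntegral.integral_const_mul]
    have e : sin ω = ∫ t in (0 : ℝ)..ω, cos t := by
      rw [integral_cos, sin_zero, sub_zero]
    have i1 : IntervalIntegrable (fun t : ℝ => t ^ α * cos t) volume 0 ω :=
      ((continuous_rpow_const (by linarith)).mul continuous_cos).intervalIntegrable _ _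
    rw [e, ← intervalIntegral.integral_sub (continuous_cos.intervalIntegrable _ _)
      (i1.const_mul _)]
    refine intervalIntegral.integral_congr fun t _ => ?_
    ring
  rw [h2, h1, h3, rpow_add hω, rpow_one]
  field_simp

theorem c_eq {α ω : ℝ} (hα : 1 < α) (hω : 0 < ω) (hc : cos ω = 0) :
    c α ω * ω ^ (1 + α) = α * (α - 1) * J α ω := by
  rw [c_parts (by linarith) hω, J_parts hα hω hc]

theorem J_add {α a b : ℝ} (hα : 1 < α) (ha : 0 ≤ a) (hb : 0 ≤ b) :
    J α b = J α a + ∫ t in a..b, cos t / t ^ (2 - α) := by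
  unfold J
  rw [intervalIntegral.integral_add_adjacent_intervals (int_g hα le_rfl ha) (int_g hα ha hb)]

/-- A full period starting with a positive half-wave. -/
theorem pair_eq {α a : ℝ} (hα : 1 < α) (ha : 0 ≤ a) :
    ∫ t in a..(a + 2 * π), cos t / t ^ (2 - α) =
      ∫ t in a..(a + π), cos t * (1 / t ^ (2 - α) - 1 / (t + π) ^ (2 - α)) := by
  have hpi := pi_pos
  rw [← intervalIntegral.integral_add_adjacent_intervals (b := a + π) (int_g hα ha (by linarith))
    (int_g hα (by linarith) (by linarith))]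
  have h1 : ∫ t in (a + π)..(a + 2 * π), cos t / t ^ (2 - α) =
      ∫ t in a..(a + π), cos (t + π) / (t + π) ^ (2 - α) := by
    have := intervalIntegral.integral_comp_add_right (a := a) (b := a + π)
      (fun t => cos t / t ^ (2 - α)) π
    rw [this]
    congr 1
    ring
  have i2 : IntervalIntegrable (fun t => cos (t + π) / (t + π) ^ (2 - α)) volume a (a + π) := by
    have := (int_g hα (a := a + π) (b := a + π + π) (by linarith) (by linarith)).comp_add_right π
    simpa using this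
  rw [h1, ← intervalIntegral.integral_add (int_g hα ha (by linarith)) i2]
  refine intervalIntegral.integral_congr fun t _ => ?_
  rw [cos_add_pi]
  ring

theorem pair_nonneg {α a : ℝ} (hα : 1 < α) (hα2 : α ≤ 2) (ha : 0 < a)
    (hcos : ∀ t ∈ Icc a (a + π), 0 ≤ cos t) :
    0 ≤ ∫ t in a..(a + 2 * π), cos t / t ^ (2 - α) := by
  have hpi := pi_pos
  rw [pair_eq hα ha.le]
  refine intervalIntegral.integral_nonneg (by linarith) fun t ht => ?_
  refine mul_nonneg (hcos t ht) ?_
  rw [sub_nonneg]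
  have ht0 : 0 < t := by linarith [ht.1]
  refine one_div_le_one_div_of_le (rpow_pos_of_pos ht0 _) ?_
  exact rpow_le_rpow ht0.le (by linarith) (by linarith)

theorem pair_pos {α a : ℝ} (hα : 1 < α) (hα2 : α < 2) (ha : 0 < a)
    (hcos : ∀ t ∈ Ioo a (a + π), 0 < cos t) :
    0 < ∫ t in a..(a + 2 * π), cos t / t ^ (2 - α) := by
  have hpi := pi_pos
  rw [pair_eq hα ha.le]
  refine intervalIntegral.intervalIntegral_pos_of_pos_on ?_ ?_ (by linarith)
  · refine ContinuousOn.intervalIntegrable ?_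
    rw [uIcc_of_le (by linarith)]
    intro t ht
    have ht0 : 0 < t := by linarith [ht.1]
    refine ContinuousAt.continuousWithinAt ?_
    have e1 : ContinuousAt (fun t : ℝ => t ^ (2 - α)) t := continuousAt_rpow_const _ _ (Or.inl ht0.ne')
    have e2 : ContinuousAt (fun t : ℝ => (t + π) ^ (2 - α)) t :=
      ContinuousAt.rpow_const (by fun_prop) (Or.inl (by positivity))
    refine continuous_cos.continuousAt.mul (ContinuousAt.sub ?_ ?_)
    · exact continuousAt_const.div e1 (rpow_pos_of_pos ht0 _).ne'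
    · exact continuousAt_const.div e2 (rpow_pos_of_pos (by positivity) _).ne'
  · intro t ht
    refine mul_pos (hcos t ht) ?_
    rw [sub_pos]
    have ht0 : 0 < t := by linarith [ht.1]
    refine one_div_lt_one_div_of_lt (rpow_pos_of_pos ht0 _) ?_
    exact rpow_lt_rpow ht0.le (by linarith) (by linarith)

theorem cos_nonneg_wave (i : ℕ) (t : ℝ) (h1 : 3 * π / 2 + 2 * π * i ≤ t)
    (h2 : t ≤ 3 * π / 2 + 2 * π * i + π) : 0 ≤ cos t := by
  have h : cos t = cos (t - ((i + 1 : ℕ) : ℝ) * (2 * π)) := by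
    rw [cos_sub_nat_mul_two_pi]
  rw [h]
  refine cos_nonneg_of_mem_Icc ⟨?_, ?_⟩
  · push_cast
    linarith
  · push_cast
    linarith

theorem cos_pos_wave (i : ℕ) (t : ℝ) (h1 : 3 * π / 2 + 2 * π * i < t)
    (h2 : t < 3 * π / 2 + 2 * π * i + π) : 0 < cos t := by
  have h : cos t = cos (t - ((i + 1 : ℕ) : ℝ) * (2 * π)) := by
    rw [cos_sub_nat_mul_two_pi]
  rw [h]
  refine cos_pos_of_mem_Ioo ⟨?_, ?_⟩
  · push_cast
    linarith
  · push_cast
    linarith

/-- The points `(4i+3)π/2`. -/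
theorem J_mono {α : ℝ} (hα : 1 < α) (hα2 : α ≤ 2) (i : ℕ) :
    J α (3 * π / 2 + 2 * π * i) ≤ J α (3 * π / 2 + 2 * π * (i + 1 : ℕ)) := by
  have hpi := pi_pos
  have h0 : (0 : ℝ) ≤ i := Nat.cast_nonneg i
  have e : 3 * π / 2 + 2 * π * ((i + 1 : ℕ) : ℝ) = 3 * π / 2 + 2 * π * i + 2 * π := by
    push_cast; ring
  rw [e, J_add hα (a := 3 * π / 2 + 2 * π * i) (b := 3 * π / 2 + 2 * π * i + 2 * π) (by positivity)
    (by positivity)]
  have := pair_nonneg hα hα2 (a := 3 * π / 2 + 2 * π * i) (by positivity)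
    (fun t ht => cos_nonneg_wave i t ht.1 ht.2)
  linarith

theorem J_ge3 {α : ℝ} (hα : 1 < α) (hα2 : α ≤ 2) (i : ℕ) :
    J α (7 * π / 2) ≤ J α (3 * π / 2 + 2 * π * (i + 1 : ℕ)) := by
  induction i with
  | zero =>
    refine le_of_eq ?_
    congr 1
    push_cast
    ring
  | succ i ih => exact ih.trans (J_mono hα hα2 (i + 1))

theorem J_ge1 {α : ℝ} (hα : 1 < α) (hα2 : α ≤ 2) (i : ℕ) :
    J α (7 * π / 2) ≤ J α (3 * π / 2 + 2 * π * i + π) := by
  have hpi := pi_pos
  have h0 : (0 : ℝ) ≤ i := Nat.cast_nonneg i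
  refine (J_ge3 hα hα2 i).trans ?_
  have e : 3 * π / 2 + 2 * π * ((i + 1 : ℕ) : ℝ) = 3 * π / 2 + 2 * π * i + π + π := by
    push_cast; ring
  rw [e, J_add hα (a := 3 * π / 2 + 2 * π * i + π) (b := 3 * π / 2 + 2 * π * i + π + π)
    (by positivity) (by positivity)]
  have h1 : 0 ≤ ∫ t in (3 * π / 2 + 2 * π * i + π)..(3 * π / 2 + 2 * π * i + π + π),
      -(cos t / t ^ (2 - α)) := by
    refine intervalIntegral.integral_nonneg (by linarith) fun t ht => ?_
    have h2 := cos_nonneg_wave i (t - π) (by linarith [ht.1]) (by linarith [ht.2])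
    rw [cos_sub_pi] at h2
    have ht0 : 0 ≤ t := by
      have := ht.1
      nlinarith [mul_nonneg hpi.le h0]
    have h3 : 0 ≤ t ^ (2 - α) := rpow_nonneg ht0 _
    rw [← neg_div]
    positivity
  rw [intervalIntegral.integral_neg] at h1
  linarith

theorem J7_pos {α : ℝ} (hα : 1 < α) (hα2 : α < 2) (h : 0 ≤ J α (3 * π / 2)) :
    0 < J α (7 * π / 2) := by
  have hpi := pi_pos
  have e : 7 * π / 2 = 3 * π / 2 + 2 * π := by ring
  rw [e, J_add hα (a := 3 * π / 2) (b := 3 * π / 2 + 2 * π) (by positivity) (by positivity)]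
  have := pair_pos hα hα2 (a := 3 * π / 2) (by positivity)
    (fun t ht => cos_pos_wave 0 t (by simpa using ht.1) (by simpa using ht.2))
  linarith

/-- For odd `n ≥ 5` the coefficient is at least the seventh one divided by `n³`. -/
theorem c_ge {α : ℝ} (hα : 1 < α) (hα2 : α ≤ 2) (h7 : 0 ≤ c α (7 * π / 2)) (n : ℕ) (hn : 5 ≤ n)
    (ho : Odd n) : c α (7 * π / 2) / n ^ 3 ≤ c α (n * π / 2) := by
  have hpi := pi_pos
  have hn0 : (0 : ℝ) < n := by exact_mod_cast (by omega : 0 < n)
  have hJ : J α (7 * π / 2) ≤ J α (n * π / 2) ∧ cos (n * π / 2) = 0 := by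
    obtain ⟨m, hm⟩ := ho
    have hcos : cos (n * π / 2) = 0 := by
      rw [cos_eq_zero_iff]
      refine ⟨m, ?_⟩
      rw [hm]
      push_cast
      ring
    refine ⟨?_, hcos⟩
    rcases Nat.even_or_odd m with he | ho
    · obtain ⟨i, hi⟩ := he
      obtain ⟨i', rfl⟩ : ∃ i', i = i' + 1 := ⟨i - 1, by omega⟩
      have := J_ge1 hα hα2 i'
      refine this.trans (le_of_eq ?_)
      congr 1
      rw [hm, hi]
      push_cast
      ring
    · obtain ⟨i, hi⟩ := ho
      obtain ⟨i', rfl⟩ : ∃ i', i = i' + 1 := ⟨i - 1, by omega⟩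
      have := J_ge3 hα hα2 i'
      refine this.trans (le_of_eq ?_)
      congr 1
      rw [hm, hi]
      push_cast
      ring
  have hcos7 : cos (7 * π / 2) = 0 := by
    rw [cos_eq_zero_iff]
    exact ⟨3, by push_cast; ring⟩
  have h1 := c_eq hα (show 0 < n * π / 2 by positivity) hJ.2
  have h2 := c_eq hα (show 0 < 7 * π / 2 by positivity) hcos7
  have h3 : c α (7 * π / 2) * (7 * π / 2) ^ (1 + α) ≤ c α (n * π / 2) * (n * π / 2) ^ (1 + α) := by
    rw [h1, h2]
    exact mul_le_mul_of_nonneg_left hJ.1 (by nlinarith)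
  have h4 : (7 * π / 2) ^ (1 + α) = 7 ^ (1 + α) * (π / 2) ^ (1 + α) := by
    rw [← mul_rpow (by norm_num) (by positivity)]
    congr 1
    ring
  have h5 : (n * π / 2) ^ (1 + α) = n ^ (1 + α) * (π / 2) ^ (1 + α) := by
    rw [← mul_rpow hn0.le (by positivity)]
    congr 1
    ring
  have hp : 0 < (π / 2) ^ (1 + α) := rpow_pos_of_pos (by positivity) _
  rw [h4, h5, ← mul_assoc, ← mul_assoc] at h3
  have h6 := le_of_mul_le_mul_right h3 hp
  have h7' : (1 : ℝ) ≤ 7 ^ (1 + α) := one_le_rpow (by norm_num) (by linarith)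
  have h8 : (n : ℝ) ^ (1 + α) ≤ n ^ 3 := by
    rw [← rpow_natCast]
    refine rpow_le_rpow_of_exponent_le (by exact_mod_cast (by omega : 1 ≤ n)) ?_
    push_cast
    linarith
  have h9 : 0 < (n : ℝ) ^ (1 + α) := rpow_pos_of_pos hn0 _
  have h10 : c α (7 * π / 2) ≤ c α (n * π / 2) * n ^ (1 + α) := by nlinarith
  have h11 : 0 ≤ c α (n * π / 2) := by
    by_contra hneg
    push Not at hneg
    nlinarith
  rw [div_le_iff₀ (by positivity)]
  nlinarith

theorem c_sub {α β ω : ℝ} (hα : 0 < α) (hαβ : α ≤ β) : |c β ω - c α ω| ≤ β - α := by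
  unfold c
  have i1 : ∀ γ : ℝ, 0 < γ → IntervalIntegrable (fun ξ : ℝ => (1 - ξ ^ γ) * cos (ω * ξ)) volume 0 1 := by
    intro γ hγ
    exact ((continuous_const.sub (continuous_rpow_const (by linarith))).mul
      (by fun_prop)).intervalIntegrable _ _
  rw [← intervalIntegral.integral_sub (i1 β (by linarith)) (i1 α hα)]
  have h1 : |∫ ξ in (0 : ℝ)..1, ((1 - ξ ^ β) * cos (ω * ξ) - (1 - ξ ^ α) * cos (ω * ξ))| ≤
      ∫ ξ in (0 : ℝ)..1, (ξ ^ α - ξ ^ β) := by
    rw [← Real.norm_eq_abs]
    refine intervalIntegral.norm_integral_le_of_norm_le zero_le_one ?_ ?_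
    · refine Filter.Eventually.of_forall fun t ht => ?_
      rw [Real.norm_eq_abs]
      have e : (1 - t ^ β) * cos (ω * t) - (1 - t ^ α) * cos (ω * t) =
        (t ^ α - t ^ β) * cos (ω * t) := by ring
      rw [e, abs_mul]
      have h1 : 0 ≤ t ^ α - t ^ β := by
        rw [sub_nonneg]
        exact rpow_le_rpow_of_exponent_ge ht.1 ht.2 hαβ
      rw [abs_of_nonneg h1]
      have := abs_cos_le_one (ω * t)
      nlinarith
    · exact ((continuous_rpow_const (by linarith)).sub
        (continuous_rpow_const (by linarith))).intervalIntegrable _ _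
  refine h1.trans ?_
  rw [intervalIntegral.integral_sub ((continuous_rpow_const (by linarith)).intervalIntegrable _ _)
    ((continuous_rpow_const (by linarith)).intervalIntegrable _ _),
    integral_rpow (Or.inl (by linarith)), integral_rpow (Or.inl (by linarith)), one_rpow, one_rpow,
    zero_rpow (by linarith), zero_rpow (by linarith), sub_zero]
  rw [div_sub_div _ _ (by linarith) (by linarith), div_le_iff₀ (by nlinarith)]
  nlinarith [mul_nonneg (show 0 ≤ β - α by linarith) (show 0 ≤ (α + 1) * (β + 1) - 1 by nlinarith)]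

theorem c1_pos {α : ℝ} (hα : 1 < α) : 0 < c α (1 * π / 2) := by
  unfold c
  refine intervalIntegral.intervalIntegral_pos_of_pos_on ?_ ?_ zero_lt_one
  · exact ((continuous_const.sub (continuous_rpow_const (by linarith))).mul
      (by fun_prop)).intervalIntegrable _ _
  · intro t ht
    have hpi := pi_pos
    refine mul_pos ?_ ?_
    · rw [sub_pos]
      exact rpow_lt_one ht.1.le ht.2 (by linarith)
    · refine cos_pos_of_mem_Ioo ⟨?_, ?_⟩
      · nlinarith [ht.1, mul_pos hpi ht.1]
      · nlinarith [ht.2]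

/-- Size of the coefficients. -/
theorem abs_c_le {α ω : ℝ} (hα : 1 < α) (hω : 0 < ω) (hc : cos ω = 0) :
    |c α ω| ≤ α / ω ^ 2 := by
  have h1 := c_eq hα hω hc
  have h2 : |J α ω| ≤ ω ^ (α - 1) / (α - 1) := by
    have : |J α ω| ≤ ∫ t in (0 : ℝ)..ω, t ^ (α - 2) := by
      unfold J
      rw [← Real.norm_eq_abs]
      refine intervalIntegral.norm_integral_le_of_norm_le hω.le ?_ ?_
      · refine Filter.Eventually.of_forall fun t ht => ?_
        rw [Real.norm_eq_abs, div_eq α t ht.1.le, abs_mul, abs_of_pos (rpow_pos_of_pos ht.1 _)]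
        have := abs_cos_le_one t
        have := rpow_pos_of_pos ht.1 (α - 2)
        nlinarith
      · exact intervalIntegral.intervalIntegrable_rpow' (by linarith)
    refine this.trans (le_of_eq ?_)
    rw [integral_rpow (Or.inl (by linarith)), show α - 2 + 1 = α - 1 by ring,
      zero_rpow (by linarith), sub_zero]
  have hp : 0 < ω ^ (1 + α) := rpow_pos_of_pos hω _
  have h3 : |c α ω| * ω ^ (1 + α) = α * (α - 1) * |J α ω| := by
    have e : |c α ω * ω ^ (1 + α)| = |c α ω| * ω ^ (1 + α) := by rw [abs_mul, abs_of_pos hp]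
    rw [← e, h1, abs_mul, abs_of_pos (by nlinarith)]
  have h4 : |c α ω| * ω ^ (1 + α) ≤ α * ω ^ (α - 1) := by
    rw [h3]
    calc α * (α - 1) * |J α ω| ≤ α * (α - 1) * (ω ^ (α - 1) / (α - 1)) :=
          mul_le_mul_of_nonneg_left h2 (by nlinarith)
      _ = α * ω ^ (α - 1) := by
          have : α - 1 ≠ 0 := by linarith
          field_simp
  have h5 : ω ^ (1 + α) = ω ^ (α - 1) * ω ^ 2 := by
    rw [← rpow_natCast ω 2, ← rpow_add hω]
    congr 1
    push_cast
    ring
  have h6 : 0 < ω ^ (α - 1) := rpow_pos_of_pos hω _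
  rw [le_div_iff₀ (by positivity)]
  rw [h5] at h4
  have h7 : |c α ω| * ω ^ 2 * ω ^ (α - 1) ≤ α * ω ^ (α - 1) := by linarith
  exact le_of_mul_le_mul_right h7 h6

end Pool.Agent.X91.Rom
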